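import Pool.Agent.Lib.Forcing.Names

/-!
Generic absoluteness of `H(ω₁)` for stationary-preserving forcing, sharps, reflecting cardinals.
The universe `V` is `ZFSet`; a generic extension is the quotient `U.M` of the `B`-names by an
ultrafilter `U` on a complete Boolean algebra `B`.
-/

set_option autoImplicit false

namespace Pool.Agent.MP_fd3eaf_lc

open Pool.Agent.Lib.Forcing ZFSet

/-- Formulas with bounded quantifiers only. -/
inductive Delta0 : Fml → Prop
  | mem (i j : ℕ) : Delta0 (.mem i j)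
  | eq (i j : ℕ) : Delta0 (.eq i j)
  | neg {φ : Fml} : Delta0 φ → Delta0 (.neg φ)
  | and {φ ψ : Fml} : Delta0 φ → Delta0 ψ → Delta0 (.and φ ψ)
  | ball {φ : Fml} (i j : ℕ) : i ≠ j → Delta0 φ →
      Delta0 (.all i (.neg (.and (.mem i j) (.neg φ))))

/-- The Levy hierarchy: `Σ_{n+1}` formulas are existential blocks over negated `Σ_n` formulas. -/
inductive Sig : ℕ → Fml → Prop
  | zero {φ : Fml} : Delta0 φ → Sig 0 φ
  | up {n : ℕ} {φ : Fml} : Sig n φ → Sig (n + 1) (.neg φ)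
  | ex {n : ℕ} {φ : Fml} (i : ℕ) : Sig (n + 1) φ → Sig (n + 1) (.neg (.all i (.neg φ)))

section
universe u
variable {M : Type u} (E : M → M → Prop)

/-- Truth of a formula when all quantifiers range over the class `P`. -/
def SatIn (P : M → Prop) : Fml → (ℕ → M) → Prop
  | .mem i j, v => E (v i) (v j)
  | .eq i j, v => v i = v j
  | .neg φ, v => ¬ SatIn P φ v
  | .and φ ψ, v => SatIn P φ v ∧ SatIn P ψ v
  | .all i φ, v => ∀ a, P a → SatIn P φ (Function.update v i a)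

/-- `x` is hereditarily countable: it is contained in a countable transitive set. -/
def HC (x : M) : Prop :=
  ∃ t, (∀ y, E y t → ∀ z, E z y → E z t) ∧ (∀ z, E z x → E z t) ∧
    ∃ w, Om E w ∧ Le E (fun z => E z t) (fun n => E n w)

/-- `C` is closed and unbounded in the ordinal `w`. -/
def Club (w C : M) : Prop :=
  (∀ x, E x C → E x w) ∧ (∀ b, E b w → ∃ x, E x C ∧ E b x) ∧
    ∀ g, E g w → (∃ b, E b g) → (∀ b, E b g → ∃ x, E x C ∧ E b x ∧ E x g) → E g C

/-- `S` is a stationary subset of the ordinal `w`. -/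
def Stat (w S : M) : Prop :=
  (∀ x, E x S → E x w) ∧ ∀ C, Club E w C → ∃ x, E x S ∧ E x C

end

/-- Membership in `V`. -/
def Mem (x y : ZFSet.{0}) : Prop := x ∈ y

/-- The canonical name of a ground-model set. -/
def chk {B : Type} [CompleteBooleanAlgebra B] : PSet.{0} → Nm B
  | ⟨ι, A⟩ => ⟨ι, fun i => chk (A i), fun _ => ⊤⟩

/-- The ground-model set `x` as an element of the extension. -/
noncomputable def ck {B : Type} [CompleteBooleanAlgebra B] (U : Ult B) (x : ZFSet.{0}) : U.M :=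
  U.cl (chk x.out)

/-- Forcing with `B` preserves stationary subsets of `ω₁`. -/
def StatPres (B : Type) [CompleteBooleanAlgebra B] : Prop :=
  ∀ S : ZFSet.{0}, Stat Mem (Ordinal.omega 1).toZFSet S →
    ∀ U : Ult B, Stat U.E (ck U (Ordinal.omega 1).toZFSet) (ck U S)

/-- Boldface `Σ_3` absoluteness of `H(ω₁)` for stationary-preserving forcing. -/
def Abs3 : Prop :=
  ∀ (B : Type) [CompleteBooleanAlgebra B], StatPres B → ∀ φ : Fml, Sig 3 φ →
    ∀ v : ℕ → ZFSet.{0}, (∀ i, HC Mem (v i)) → ∀ U : Ult B,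
      (SatIn Mem (HC Mem) φ v ↔ SatIn U.E (HC U.E) φ fun i => ck U (v i))

/-- The subsets of `y` that are definable over `(y, ∈)` with parameters. -/
noncomputable def DefP (y : ZFSet.{0}) : ZFSet.{0} :=
  (powerset y).sep fun z => ∃ (φ : Fml) (v : ℕ → ZFSet.{0}), (∀ i, v i ∈ y) ∧
    ∀ t, t ∈ z ↔ t ∈ y ∧ SatIn Mem (· ∈ y) φ (Function.update v 0 t)

/-- The constructible hierarchy `L_ξ(a)` over `a ∪ {a}`. -/
noncomputable def Lh (a : ZFSet.{0}) (ξ : Ordinal.{0}) : ZFSet.{0} :=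
  Ordinal.limitRecOn ξ (insert a a) (fun _ y => DefP y)
    fun l _ ih => ⋃₀ range fun ζ : Set.Iio l => ih ζ.1 ζ.2

/-- No function in `M` maps `x` cofinally into the ordinal `l`. -/
def Bdd (M : Set ZFSet.{0}) (x : ZFSet.{0}) (l : Ordinal.{0}) : Prop :=
  ∀ f ∈ M, IsFunc x l.toZFSet f → ∃ b < l, ∀ p y, pair p y ∈ f → y ∈ b.toZFSet

/-- `l` is an uncountable regular cardinal of `M`. -/
def Reg (M : Set ZFSet.{0}) (l : Ordinal.{0}) : Prop :=
  l.toZFSet ∈ M ∧ Ordinal.omega0 < l ∧ ∀ a < l, Bdd M a.toZFSet l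

/-- In `M`, the sharp of the transitive set `a` exists: for some regular `l > |a|` there is a club
of indiscernibles for `(L_l(a), ∈, b)_{b ∈ a ∪ {a}}`. -/
def SharpIn (M : Set ZFSet.{0}) (a : ZFSet.{0}) : Prop :=
  ∃ l, Reg M l ∧ Bdd M a l ∧ ∃ I ∈ M, Club Mem l.toZFSet I ∧
    ∀ (φ : Fml) (b : ℕ → ZFSet.{0}) (s t : ℕ → Ordinal.{0}), (∀ i, b i ∈ insert a a) →
      StrictMono s → StrictMono t → (∀ i, (s i).toZFSet ∈ I ∧ (t i).toZFSet ∈ I) →
      (SatIn Mem (· ∈ Lh a l) φ (fun n => if n % 2 = 0 then b (n / 2) else (s (n / 2)).toZFSet) ↔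
        SatIn Mem (· ∈ Lh a l) φ fun n => if n % 2 = 0 then b (n / 2) else (t (n / 2)).toZFSet)

/-- In `M`, `k` is inaccessible and `V_k` is `Σ_2`-elementary in the universe. -/
def Reflecting (M : Set ZFSet.{0}) (k : Ordinal.{0}) : Prop :=
  Reg M k ∧ (∀ a < k, ∀ p ∈ M, (∀ z, z ∈ p ↔ z ∈ M ∧ z ⊆ a.toZFSet) → Bdd M p k) ∧
    ∀ φ : Fml, Sig 2 φ → ∀ v : ℕ → ZFSet.{0}, (∀ i, v i ∈ M ∧ (v i).rank < k) →
      (SatIn Mem (fun x => x ∈ M ∧ x.rank < k) φ v ↔ SatIn Mem (· ∈ M) φ v)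

/-- `M` is a transitive model of ZFC + every set has a sharp + there is a `Σ_2`-reflecting
cardinal. -/
def Target (M : Set ZFSet.{0}) : Prop :=
  (∀ x ∈ M, ∀ y ∈ x, y ∈ M) ∧ ZFC (fun x y : M => x.1 ∈ y.1) ∧
    (∀ a ∈ M, a.IsTransitive → SharpIn M a) ∧ ∃ k, Reflecting M k

end Pool.Agent.MP_fd3eaf_lc
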