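import Pool.Agent.MP_fd3eaf_lc.Defs
import Pool.Agent.MP_ecfd11_lc.Rec

/-!
The hierarchy `L_ξ(a)` is definable in every inner model that contains `a`.
-/

set_option autoImplicit false

namespace Pool.Agent.MP_fd3eaf_lc

open Pool.Agent.Lib.Forcing ZFSet Classical
open Pool.Agent.MP_ecfd11_lc (InnerModel Ctx Df Tm img gr app pw)

noncomputable abbrev omZ : ZFSet.{0} := Ordinal.omega0.toZFSet

noncomputable abbrev natZ (n : ℕ) : ZFSet.{0} := (n : Ordinal.{0}).toZFSet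

/-- Eventually constant sequences in `y`. -/
noncomputable def es (y : ZFSet.{0}) : ZFSet.{0} :=
  (powerset (prod omZ y)).sep fun s => IsFunc omZ y s ∧ ∃ n ∈ omZ, ∀ i ∈ omZ, n ⊆ i → app s i = app s n

/-- Update of a sequence. -/
noncomputable def upd (s i a : ZFSet.{0}) : ZFSet.{0} :=
  gr (fun j => if j = i then a else app s j) omZ

/-- One step of the closure under the logical operations. -/
noncomputable def stp (y F : ZFSet.{0}) : ZFSet.{0} :=
  F ∪ img (fun p => (es y).sep fun s => app s (MP_ecfd11_lc.fst p) ∈ app s (MP_ecfd11_lc.snd p))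
      (prod omZ omZ) ∪
    img (fun p => (es y).sep fun s => app s (MP_ecfd11_lc.fst p) = app s (MP_ecfd11_lc.snd p))
      (prod omZ omZ) ∪
    img (fun X => es y \ X) F ∪
    img (fun p => MP_ecfd11_lc.fst p ∩ MP_ecfd11_lc.snd p) (prod F F) ∪
    img (fun p => (es y).sep fun s => ∀ a ∈ y, upd s (MP_ecfd11_lc.fst p) a ∈ MP_ecfd11_lc.snd p)
      (prod omZ F)

/-- The definable sets of sequences. -/
noncomputable def dfs (y : ZFSet.{0}) : ZFSet.{0} :=
  ⋃₀ range fun n : ULift.{0} ℕ => (stp y)^[n.down] ∅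

theorem ldefa_om {i : ZFSet.{0}} : i ∈ omZ ↔ ∃ n : ℕ, i = natZ n := by
  rw [Ordinal.mem_toZFSet_iff]
  exact ⟨fun ⟨a, h, e⟩ => (Ordinal.lt_omega0.1 h).imp fun n k => by rw [← e, k],
    fun ⟨n, e⟩ => ⟨n, Ordinal.natCast_lt_omega0 n, e.symm⟩⟩

theorem ldefa_nat (n : ℕ) : natZ n ∈ omZ := ldefa_om.2 ⟨n, rfl⟩

theorem ldefa_inj {m n : ℕ} : natZ m = natZ n ↔ m = n :=
  Ordinal.toZFSet_injective.eq_iff.trans Nat.cast_inj

theorem ldefa_sub {m n : ℕ} : natZ m ⊆ natZ n ↔ m ≤ n :=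
  Ordinal.toZFSet_subset_toZFSet_iff.trans Nat.cast_le

theorem ldefa_app {y s i : ZFSet.{0}} (hs : s ∈ es y) (hi : i ∈ omZ) : app s i ∈ y := by
  obtain ⟨h1, h2⟩ := (mem_sep.1 hs).2.1
  obtain ⟨w, a, b⟩ := h2 i hi
  rw [MP_ecfd11_lc.app_eq a b]
  exact (pair_mem_prod.1 (h1 a)).2

theorem ldefa_gr {y : ZFSet.{0}} {f : ZFSet.{0} → ZFSet.{0}} (h : ∀ i ∈ omZ, f i ∈ y) (n : ℕ)
    (hn : ∀ m, n ≤ m → f (natZ m) = f (natZ n)) : gr f omZ ∈ es y := by
  have hf := MP_ecfd11_lc.isFunc_gr h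
  refine mem_sep.2 ⟨mem_powerset.2 hf.1, hf, natZ n, ldefa_nat n, fun i hi k => ?_⟩
  rw [MP_ecfd11_lc.app_gr hi, MP_ecfd11_lc.app_gr (ldefa_nat n)]
  obtain ⟨m, rfl⟩ := ldefa_om.1 hi
  exact hn m (ldefa_sub.1 k)

theorem ldefa_upd {y s a : ZFSet.{0}} (hs : s ∈ es y) (ha : a ∈ y) (i : ℕ) :
    upd s (natZ i) a ∈ es y := by
  obtain ⟨n, h1, h2⟩ := (mem_sep.1 hs).2.2
  obtain ⟨n, rfl⟩ := ldefa_om.1 h1
  refine ldefa_gr (fun j hj => ?_) (max n (i + 1)) fun m hm => ?_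
  · split_ifs
    · exact ha
    · exact ldefa_app hs hj
  · rw [if_neg fun e => by have := ldefa_inj.1 e; omega,
      if_neg fun e => by have := ldefa_inj.1 e; omega,
      h2 _ (ldefa_nat m) (ldefa_sub.2 (by omega)),
      h2 _ (ldefa_nat (max n (i + 1))) (ldefa_sub.2 (by omega))]

theorem ldefa_val (s a : ZFSet.{0}) (i : ℕ) :
    (fun j => app (upd s (natZ i) a) (natZ j)) = Function.update (fun j => app s (natZ j)) i a := by
  funext j
  rw [upd, MP_ecfd11_lc.app_gr (ldefa_nat j), Function.update_apply]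
  exact if_congr ldefa_inj rfl rfl

/-- The set of sequences that satisfy a formula. -/
noncomputable def ldefaD (y : ZFSet.{0}) (φ : Fml) : ZFSet.{0} :=
  (es y).sep fun s => SatIn Mem (· ∈ y) φ fun i => app s (natZ i)

theorem ldefa_neg (y : ZFSet.{0}) (φ : Fml) : es y \ ldefaD y φ = ldefaD y (.neg φ) := by
  ext s
  simp only [ldefaD, mem_sdiff, mem_sep, SatIn]
  tauto

theorem ldefa_and (y : ZFSet.{0}) (φ ψ : Fml) :
    ldefaD y φ ∩ ldefaD y ψ = ldefaD y (.and φ ψ) := by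
  ext s
  simp only [ldefaD, mem_inter, mem_sep, SatIn]
  tauto

theorem ldefa_all (y : ZFSet.{0}) (i : ℕ) (φ : Fml) :
    ((es y).sep fun s => ∀ a ∈ y, upd s (natZ i) a ∈ ldefaD y φ) = ldefaD y (.all i φ) := by
  ext s
  simp only [ldefaD, mem_sep, SatIn, ldefa_val]
  exact and_congr_right fun hs => forall₂_congr fun a ha => and_iff_right (ldefa_upd hs ha i)

theorem ldefa_img {F : ZFSet.{0} → ZFSet.{0} → ZFSet.{0}} {A B X : ZFSet.{0}} :
    X ∈ img (fun p => F (MP_ecfd11_lc.fst p) (MP_ecfd11_lc.snd p)) (prod A B) ↔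
      ∃ a ∈ A, ∃ b ∈ B, F a b = X := by
  rw [MP_ecfd11_lc.mem_img]
  constructor
  · rintro ⟨p, h, e⟩
    obtain ⟨a, ha, b, hb, rfl⟩ := mem_prod.1 h
    rw [MP_ecfd11_lc.fst_pair, MP_ecfd11_lc.snd_pair] at e
    exact ⟨a, ha, b, hb, e⟩
  · rintro ⟨a, ha, b, hb, e⟩
    exact ⟨pair a b, pair_mem_prod.2 ⟨ha, hb⟩, by
      rw [MP_ecfd11_lc.fst_pair, MP_ecfd11_lc.snd_pair, e]⟩

theorem ldefa_stp {y F X : ZFSet.{0}} : X ∈ stp y F ↔ ((((X ∈ F ∨
    ∃ i ∈ omZ, ∃ j ∈ omZ, ((es y).sep fun s => app s i ∈ app s j) = X) ∨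
    ∃ i ∈ omZ, ∃ j ∈ omZ, ((es y).sep fun s => app s i = app s j) = X) ∨
    ∃ A ∈ F, es y \ A = X) ∨ ∃ A ∈ F, ∃ B ∈ F, A ∩ B = X) ∨
    ∃ i ∈ omZ, ∃ A ∈ F, ((es y).sep fun s => ∀ a ∈ y, upd s i a ∈ A) = X := by
  rw [stp, mem_union, mem_union, mem_union, mem_union, mem_union,
    ldefa_img (F := fun i j => (es y).sep fun s => app s i ∈ app s j),
    ldefa_img (F := fun i j => (es y).sep fun s => app s i = app s j),
    ldefa_img (F := fun A B => A ∩ B),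
    ldefa_img (F := fun i A => (es y).sep fun s => ∀ a ∈ y, upd s i a ∈ A), MP_ecfd11_lc.mem_img]

theorem ldefa_mono {y X : ZFSet.{0}} {m n : ℕ} (h : m ≤ n) (hX : X ∈ (stp y)^[m] ∅) :
    X ∈ (stp y)^[n] ∅ := by
  induction h with
  | refl => exact hX
  | step _ ih =>
    rw [Function.iterate_succ_apply', ldefa_stp]
    exact Or.inl (Or.inl (Or.inl (Or.inl (Or.inl ih))))

theorem ldefa_dfs {y X : ZFSet.{0}} : X ∈ dfs y ↔ ∃ n : ℕ, X ∈ (stp y)^[n] ∅ := by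
  rw [dfs, mem_sUnion]
  exact ⟨fun ⟨_, h, k⟩ => by
    obtain ⟨n, rfl⟩ := mem_range.1 h
    exact ⟨n.down, k⟩, fun ⟨n, h⟩ => ⟨_, mem_range.2 ⟨⟨n⟩, rfl⟩, h⟩⟩

theorem mem_dfs {y X : ZFSet.{0}} : X ∈ dfs y ↔ ∃ φ : Fml,
    X = (es y).sep fun s => SatIn Mem (· ∈ y) φ fun i => app s (natZ i) := by
  rw [ldefa_dfs]
  change _ ↔ ∃ φ, X = ldefaD y φ
  constructor
  · rintro ⟨n, hn⟩
    induction n generalizing X with
    | zero => exact absurd hn (notMem_empty X)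
    | succ n ih =>
      rw [Function.iterate_succ_apply', ldefa_stp] at hn
      rcases hn with (((((h | ⟨i, hi, j, hj, rfl⟩) | ⟨i, hi, j, hj, rfl⟩) | ⟨A, h, rfl⟩) |
        ⟨A, h, B, k, rfl⟩) | ⟨i, hi, A, h, rfl⟩)
      · exact ih h
      · obtain ⟨i, rfl⟩ := ldefa_om.1 hi
        obtain ⟨j, rfl⟩ := ldefa_om.1 hj
        exact ⟨.mem i j, rfl⟩
      · obtain ⟨i, rfl⟩ := ldefa_om.1 hi
        obtain ⟨j, rfl⟩ := ldefa_om.1 hj
        exact ⟨.eq i j, rfl⟩
      · obtain ⟨φ, rfl⟩ := ih h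
        exact ⟨_, ldefa_neg y φ⟩
      · obtain ⟨φ, rfl⟩ := ih h
        obtain ⟨ψ, rfl⟩ := ih k
        exact ⟨_, ldefa_and y φ ψ⟩
      · obtain ⟨i, rfl⟩ := ldefa_om.1 hi
        obtain ⟨φ, rfl⟩ := ih h
        exact ⟨_, ldefa_all y i φ⟩
  · rintro ⟨φ, rfl⟩
    induction φ with
    | mem i j =>
      exact ⟨1, ldefa_stp.2 (Or.inl (Or.inl (Or.inl (Or.inl (Or.inr
        ⟨_, ldefa_nat i, _, ldefa_nat j, rfl⟩)))))⟩
    | eq i j =>
      exact ⟨1, ldefa_stp.2 (Or.inl (Or.inl (Or.inl (Or.inr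
        ⟨_, ldefa_nat i, _, ldefa_nat j, rfl⟩))))⟩
    | neg φ ih =>
      obtain ⟨n, hn⟩ := ih
      refine ⟨n + 1, ?_⟩
      rw [Function.iterate_succ_apply', ldefa_stp]
      exact Or.inl (Or.inl (Or.inr ⟨_, hn, ldefa_neg y φ⟩))
    | and φ ψ ih ih' =>
      obtain ⟨n, hn⟩ := ih
      obtain ⟨m, hm⟩ := ih'
      refine ⟨max n m + 1, ?_⟩
      rw [Function.iterate_succ_apply', ldefa_stp]
      exact Or.inl (Or.inr ⟨_, ldefa_mono (le_max_left _ _) hn, _,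
        ldefa_mono (le_max_right _ _) hm, ldefa_and y φ ψ⟩)
    | all i φ ih =>
      obtain ⟨n, hn⟩ := ih
      refine ⟨n + 1, ?_⟩
      rw [Function.iterate_succ_apply', ldefa_stp]
      exact Or.inr ⟨_, ldefa_nat i, _, hn, ldefa_all y i φ⟩

/-- Only finitely many variables matter. -/
theorem satIn_irrel (φ : Fml) : ∃ n, ∀ {M : Type 1} (E : M → M → Prop) (P : M → Prop)
    (v w : ℕ → M), (∀ i < n, v i = w i) → (SatIn E P φ v ↔ SatIn E P φ w) := by
  induction φ with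
  | mem i j =>
    exact ⟨max i j + 1, fun E P v w h => by
      rw [SatIn, SatIn, h i (by omega), h j (by omega)]⟩
  | eq i j =>
    exact ⟨max i j + 1, fun E P v w h => by
      rw [SatIn, SatIn, h i (by omega), h j (by omega)]⟩
  | neg φ ih =>
    obtain ⟨n, hn⟩ := ih
    exact ⟨n, fun E P v w h => not_congr (hn E P v w h)⟩
  | and φ ψ ih ih' =>
    obtain ⟨n, hn⟩ := ih
    obtain ⟨m, hm⟩ := ih'
    exact ⟨max n m, fun E P v w h => and_congr (hn E P v w fun i hi => h i (by omega))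
      (hm E P v w fun i hi => h i (by omega))⟩
  | all i φ ih =>
    obtain ⟨n, hn⟩ := ih
    refine ⟨n, fun E P v w h => forall₂_congr fun a _ => hn E P _ _ fun j hj => ?_⟩
    rw [Function.update_apply, Function.update_apply, h j hj]

theorem defP_eq (y : ZFSet.{0}) : DefP y =
    img (fun p => y.sep fun t => upd (MP_ecfd11_lc.snd p) ∅ t ∈ MP_ecfd11_lc.fst p)
      (prod (dfs y) (es y)) := by
  have e0 : (∅ : ZFSet.{0}) = natZ 0 := by
    rw [natZ, Nat.cast_zero, Ordinal.toZFSet_zero]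
  have key : ∀ (φ : Fml) (s : ZFSet.{0}), s ∈ es y → ∀ t,
      t ∈ (y.sep fun t => upd s ∅ t ∈ ldefaD y φ) ↔
        t ∈ y ∧ SatIn Mem (· ∈ y) φ (Function.update (fun j => app s (natZ j)) 0 t) := by
    intro φ s hs t
    rw [mem_sep, ldefaD, mem_sep, e0, ldefa_val]
    exact and_congr_right fun ht => and_iff_right (ldefa_upd hs ht 0)
  ext z
  rw [ldefa_img (F := fun A s => y.sep fun t => upd s ∅ t ∈ A), DefP, mem_sep]
  constructor
  · rintro ⟨-, φ, v, hv, h⟩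
    obtain ⟨n, hn⟩ := satIn_irrel φ
    have hg : ∀ i : ZFSet.{0}, ∃ m : ℕ, ∀ k : ℕ, i = natZ k → m = min k n := fun i => by
      by_cases hi : i ∈ omZ
      · obtain ⟨k, rfl⟩ := ldefa_om.1 hi
        exact ⟨min k n, fun _ e => by rw [ldefa_inj.1 e]⟩
      · exact ⟨0, fun k e => absurd (e ▸ ldefa_nat k) hi⟩
    choose g hg using hg
    have hs : gr (fun i => v (g i)) omZ ∈ es y := ldefa_gr (fun i _ => hv _) n fun m hm => by
      rw [hg _ m rfl, hg _ n rfl, min_eq_right hm, min_self]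
    refine ⟨ldefaD y φ, mem_dfs.2 ⟨φ, rfl⟩, _, hs, ZFSet.ext fun t => ?_⟩
    rw [key φ _ hs, h]
    refine and_congr_right fun _ => hn _ _ _ _ fun i hi => ?_
    rw [Function.update_apply, Function.update_apply, MP_ecfd11_lc.app_gr (ldefa_nat i),
      hg _ i rfl, min_eq_left hi.le]
  · rintro ⟨A, hA, s, hs, rfl⟩
    obtain ⟨φ, rfl⟩ := mem_dfs.1 hA
    exact ⟨mem_powerset.2 fun t ht => (mem_sep.1 ht).1, φ, fun j => app s (natZ j),
      fun j => ldefa_app hs (ldefa_nat j), key φ s hs⟩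

variable {C : Set ZFSet.{0}}

theorem ldefb_om {x : ZFSet.{0}} : x ∈ omZ ↔ ∃ m : ℕ, natZ m = x := by
  rw [Ordinal.mem_toZFSet_iff]
  constructor
  · rintro ⟨a, ha, rfl⟩
    obtain ⟨m, rfl⟩ := Ordinal.lt_omega0.1 ha
    exact ⟨m, rfl⟩
  · rintro ⟨m, rfl⟩
    exact ⟨m, Ordinal.natCast_lt_omega0 m, rfl⟩

theorem ldefb_succ (m : ℕ) : natZ (m + 1) = insert (natZ m) (natZ m) := by
  rw [natZ, Nat.cast_succ, Ordinal.toZFSet_add_one]

theorem ldefb_gr {x y s : ZFSet.{0}} (h : IsFunc x y s) : gr (app s) x = s := by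
  ext z
  constructor
  · intro hz
    obtain ⟨a, ha, rfl⟩ := MP_ecfd11_lc.mem_img.1 hz
    exact h.app_mem ha
  · intro hz
    obtain ⟨a, ha, b, -, rfl⟩ := mem_prod.1 (h.1 hz)
    exact MP_ecfd11_lc.pair_mem_gr.2 ⟨ha, h.app_eq hz⟩

theorem ldefb_upd [Ctx C C] (s t r : (ℕ → ZFSet.{0}) → ZFSet.{0}) [Tm C C s] [Tm C C t]
    [Tm C C r] : Tm C C fun v => upd (s v) (t v) (r v) := by
  unfold upd
  infer_instance

theorem ldefb_fin (hC : InnerModel C) {f : ZFSet.{0} → ZFSet.{0}} {c : ZFSet.{0}}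
    (hf : ∀ j ∈ omZ, f j ∈ C) (hc : c ∈ C) (m : ℕ) :
    gr (fun j => if j ∈ natZ m then f j else c) omZ ∈ C := by
  have := hC.ctx
  induction m with
  | zero =>
    have h1 : Tm C C fun v => gr (fun _ => v 0) omZ := by infer_instance
    simpa [natZ] using h1.mem (fun _ => c) fun _ => hc
  | succ m ih =>
    have h1 := (ldefb_upd (C := C) (fun v => v 0) (fun _ => natZ m) fun v => v 1).mem
      (MP_ecfd11_lc.cons _ fun _ => f (natZ m))
      (MP_ecfd11_lc.cons_mem ih fun _ => hf _ (ldefb_om.2 ⟨m, rfl⟩))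
    refine (MP_ecfd11_lc.gr_congr fun j hj => ?_).subst (motive := fun x => x ∈ C) h1
    rw [MP_ecfd11_lc.cons_zero, MP_ecfd11_lc.app_gr hj, ldefb_succ]
    by_cases h : j = natZ m
    · rw [if_pos h, if_pos (mem_insert_iff.2 (Or.inl h)), h]
      rfl
    · simp only [h, mem_insert_iff, false_or, if_false]

/-- Hint: an eventually constant sequence in `y ∈ C` lies in `C` (induction on the point from which
it is constant, `upd`), so `powerset` can be replaced by `pw C`. -/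
theorem tm_es (hC : InnerModel C) : Tm C C fun v => es (v 0) := by
  have := hC.ctx
  refine Tm.of (fun v => (pw C (prod omZ (v 0))).sep fun s => IsFunc omZ (v 0) s ∧
    ∃ n, n ∈ omZ ∧ ∀ i, i ∈ omZ → n ⊆ i → app s i = app s n) (by infer_instance) fun v hv => ?_
  ext s
  rw [es, mem_sep, mem_sep, mem_powerset, MP_ecfd11_lc.mem_pw]
  refine and_congr_left fun ⟨h1, n, h2, h3⟩ => and_iff_left ?_
  obtain ⟨m, rfl⟩ := ldefb_om.1 h2
  have h4 : ∀ j ∈ omZ, app s j ∈ C := fun j hj =>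
    hC.trans _ (hv 0) _ (pair_mem_prod.1 (h1.1 (h1.app_mem hj))).2
  have h5 := ldefb_fin hC h4 (h4 _ h2) m
  rwa [MP_ecfd11_lc.gr_congr (G := app s) fun j hj => ?_, ldefb_gr h1] at h5
  split_ifs with h6
  · rfl
  · exact (h3 j hj ((((isOrdinal_toZFSet _).mem hj).notMem_iff_subset
      (isOrdinal_toZFSet _)).1 h6)).symm

theorem ldefb_stp (hC : InnerModel C) (s t : (ℕ → ZFSet.{0}) → ZFSet.{0}) [Tm C C s]
    [Tm C C t] : Tm C C fun v => stp (s v) (t v) := by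
  have := hC.ctx
  have h0 := tm_es hC
  have h1 := Tm.one (C := C) (A := C) es
  have h2 := ldefb_upd (C := C)
  have h3 : Tm C C fun v => stp (v 0) (v 1) := by
    have a1 : Tm C C fun v => img (fun p => (es (v 0)).sep fun s =>
      app s (MP_ecfd11_lc.fst p) ∈ app s (MP_ecfd11_lc.snd p)) (prod omZ omZ) := by infer_instance
    have a2 : Tm C C fun v => img (fun p => (es (v 0)).sep fun s =>
      app s (MP_ecfd11_lc.fst p) = app s (MP_ecfd11_lc.snd p)) (prod omZ omZ) := by infer_instance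
    have a3 : Tm C C fun v => img (fun X => es (v 0) \ X) (v 1) := by infer_instance
    have a4 : Tm C C fun v => img (fun p => MP_ecfd11_lc.fst p ∩ MP_ecfd11_lc.snd p)
      (prod (v 1) (v 1)) := by infer_instance
    have a5 : Tm C C fun v => img (fun p => (es (v 0)).sep fun s => ∀ a ∈ v 0,
      upd s (MP_ecfd11_lc.fst p) a ∈ MP_ecfd11_lc.snd p) (prod omZ (v 1)) := by infer_instance
    unfold stp
    infer_instance
  exact Tm.two stp s t

/-- The iteration of `stp` along the ordinals. -/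
noncomputable def ldefbH (y : ZFSet.{0}) : ZFSet.{0} → ZFSet.{0} :=
  MP_ecfd11_lc.recF (fun x => x) fun _ g => ⋃₀ img (fun p => stp y (MP_ecfd11_lc.snd p)) g

theorem ldefb_memH {y x w : ZFSet.{0}} : w ∈ ldefbH y x ↔ ∃ z ∈ x, w ∈ stp y (ldefbH y z) := by
  rw [ldefbH, MP_ecfd11_lc.recF_eq mem_wf]
  simp [gr]

theorem ldefb_sub {y F w : ZFSet.{0}} (h : w ∈ F) : w ∈ stp y F := by
  simp only [stp, mem_union, h, true_or]

theorem ldefb_H (y : ZFSet.{0}) (m : ℕ) : ldefbH y (natZ m) = (stp y)^[m] ∅ := by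
  induction m with
  | zero =>
    ext w
    rw [ldefb_memH]
    simp [natZ]
  | succ m ih =>
    ext w
    rw [Function.iterate_succ_apply', ← ih, ldefb_memH, ldefb_succ]
    constructor
    · rintro ⟨z, hz, h⟩
      rcases mem_insert_iff.1 hz with rfl | hz
      · exact h
      · exact ldefb_sub (ldefb_memH.2 ⟨z, hz, h⟩)
    · exact fun h => ⟨_, mem_insert _ _, h⟩

/-- Hint: `Tm.recursion` along `∈` for `H v x = (stp (v 0))^[n] ∅` if `x = natZ n`. -/
theorem tm_dfs (hC : InnerModel C) : Tm C C fun v => dfs (v 0) := by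
  have := hC.ctx
  have h0 := ldefb_stp hC
  have h1 := Tm.recursion (C := C) (A := C) (fun _ x => x)
    (fun v _ g => ⋃₀ img (fun p => stp (v 0) (MP_ecfd11_lc.snd p)) g) (fun v => ldefbH (v 0))
    (fun _ _ => mem_wf) fun _ _ x _ => MP_ecfd11_lc.recF_eq mem_wf _ x
  refine Tm.of _ (Tm.fam (C := C) (A := C) (fun v => ldefbH (v 0)) (fun n => n) fun _ => omZ)
    fun v _ => ?_
  ext w
  rw [ldefb_memH, dfs, mem_sUnion]
  constructor
  · rintro ⟨z, hz, h⟩
    obtain ⟨m, rfl⟩ := ldefb_om.1 hz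
    refine ⟨_, mem_range.2 ⟨⟨m + 1⟩, rfl⟩, ?_⟩
    rwa [Function.iterate_succ_apply', ← ldefb_H]
  · rintro ⟨_, hz, h⟩
    obtain ⟨⟨m⟩, rfl⟩ := mem_range.1 hz
    refine ⟨_, ldefb_om.2 ⟨m, rfl⟩, ?_⟩
    rw [ldefb_H]
    exact ldefb_sub h

theorem tm_defP (hC : InnerModel C) : Tm C C fun v => DefP (v 0) := by
  have := hC.ctx
  have h0 := tm_es hC
  have h1 := tm_dfs hC
  have h2 := ldefb_upd (C := C)
  exact Tm.of _ (by infer_instance) fun v _ => (defP_eq (v 0)).symm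

/-- Hint: `Tm.recursion` along `∈`; distinguish the cases zero, successor (`x = insert y y` for
some `y ∈ x`) and limit. -/
theorem tm_Lh (hC : InnerModel C) {a : ZFSet.{0}} (ha : a ∈ C) :
    Tm C C fun v => if (v 0).IsOrdinal then Lh a (v 0).rank else ∅ := by
  have := hC.ctx
  have h0 := tm_defP hC
  have h1 := Tm.one (C := C) (A := C) DefP
  have h2 : Tm C C fun _ => a := Tm.ofMem ha
  refine Tm.recursion (C := C) (A := C) (fun _ x => x)
    (fun _ x g => if x.IsOrdinal then if x = ∅ then insert a a else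
      if ∃ y, y ∈ x ∧ x = insert y y then
        ⋃₀ img (fun y => DefP (app g y)) (x.sep fun y => x = insert y y)
      else ⋃₀ img (fun p => MP_ecfd11_lc.snd p) g else ∅)
    (fun _ x => if x.IsOrdinal then Lh a x.rank else ∅) (fun _ _ => mem_wf) fun _ _ x _ => ?_
  by_cases hx : x.IsOrdinal
  swap
  · rw [if_neg hx, if_neg hx]
  rw [if_pos hx, if_pos hx]
  obtain ⟨o, rfl⟩ := isOrdinal_iff_mem_range_toZFSet.1 hx
  have key : ∀ y, y ∈ o.toZFSet ∧ o.toZFSet = insert y y ↔ ∃ b, b + 1 = o ∧ b.toZFSet = y := by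
    intro y
    constructor
    · rintro ⟨h3, h4⟩
      obtain ⟨b, -, rfl⟩ := Ordinal.mem_toZFSet_iff.1 h3
      exact ⟨b, Ordinal.toZFSet_injective ((Ordinal.toZFSet_add_one b).trans h4.symm), rfl⟩
    · rintro ⟨b, rfl, rfl⟩
      exact ⟨Ordinal.toZFSet_mem_toZFSet_iff.2 (lt_add_one b), Ordinal.toZFSet_add_one b⟩
  have h3 : o ≠ 0 → o.toZFSet ≠ ∅ := fun h e =>
    h (Ordinal.toZFSet_injective (e.trans Ordinal.toZFSet_zero.symm))
  rw [Ordinal.rank_toZFSet]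
  rcases Ordinal.zero_or_succ_or_isSuccLimit o with rfl | ⟨b, rfl⟩ | hl
  · rw [if_pos Ordinal.toZFSet_zero, Lh, Ordinal.limitRecOn_zero]
  · rw [Order.succ_eq_add_one] at key h3 ⊢
    have h4 := (key _).2 ⟨b, rfl, rfl⟩
    rw [if_neg (h3 (lt_of_le_of_lt zero_le (lt_add_one b)).ne'), if_pos ⟨_, h4⟩, Lh,
      Ordinal.limitRecOn_add_one]
    ext w
    simp only [mem_sUnion, MP_ecfd11_lc.mem_img, mem_sep, key]
    constructor
    · intro h
      refine ⟨_, ⟨_, ⟨b, rfl, rfl⟩, rfl⟩, ?_⟩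
      rwa [MP_ecfd11_lc.app_gr h4.1, if_pos (isOrdinal_toZFSet b), Ordinal.rank_toZFSet]
    · rintro ⟨_, ⟨_, ⟨c, h5, rfl⟩, rfl⟩, h⟩
      obtain rfl : c = b := Order.succ_injective h5
      rwa [MP_ecfd11_lc.app_gr h4.1, if_pos (isOrdinal_toZFSet c), Ordinal.rank_toZFSet] at h
  · rw [if_neg (h3 hl.pos.ne'), if_neg, Lh, Ordinal.limitRecOn_limit _ _ _ _ hl]
    · refine congrArg _ ?_
      ext w
      rw [show (fun p => MP_ecfd11_lc.snd p) = MP_ecfd11_lc.snd from rfl, MP_ecfd11_lc.snd_gr,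
        mem_range, MP_ecfd11_lc.mem_img]
      constructor
      · rintro ⟨⟨c, hc⟩, rfl⟩
        refine ⟨_, Ordinal.toZFSet_mem_toZFSet_iff.2 hc, ?_⟩
        rw [if_pos (isOrdinal_toZFSet c), Ordinal.rank_toZFSet]
        rfl
      · rintro ⟨y, hy, rfl⟩
        obtain ⟨c, hc, rfl⟩ := Ordinal.mem_toZFSet_iff.1 hy
        refine ⟨⟨c, hc⟩, ?_⟩
        rw [if_pos (isOrdinal_toZFSet c), Ordinal.rank_toZFSet]
        rfl
    · rintro ⟨y, hy⟩
      obtain ⟨b, rfl, -⟩ := (key y).1 hy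
      exact (hl.add_one_lt (lt_add_one b)).false

end Pool.Agent.MP_fd3eaf_lc
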