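import Mathlib

/-!
Locations: every ordinal `c ≥ ω` is decomposed as `(l, k, e, q)`: a level `l ≤ c`, a formula number
`k`, a cutoff `e ≤ l` and a list `q` of parameters below `l`.  The decomposition `D` enumerates the
valid locations of each level in increasing order; a new level starts when all are used.
-/

set_option autoImplicit false

namespace Pool.Agent.MP_fd3eaf_lc

open Set Ordinal

abbrev On : Type 1 := Ordinal.{0}

@[ext] structure Loc where
  l : On
  k : ℕ
  e : On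
  q : List On

/-- Shortlex order. -/
def qlt (q r : List On) : Prop :=
  q.length < r.length ∨ (q.length = r.length ∧
    ∃ i < q.length, q.getD i 0 < r.getD i 0 ∧ ∀ j < i, q.getD j 0 = r.getD j 0)

def Loc.lt (x y : Loc) : Prop :=
  x.l < y.l ∨ (x.l = y.l ∧ (x.k < y.k ∨ (x.k = y.k ∧ (x.e < y.e ∨ (x.e = y.e ∧ qlt x.q y.q)))))

def Loc.Valid (x : Loc) : Prop := x.e ≤ x.l ∧ ∀ a ∈ x.q, a < x.l

def Loc.map (f : On → On) (x : Loc) : Loc := ⟨f x.l, x.k, f x.e, x.q.map f⟩

theorem locA_qlt_nil (q : List On) : ¬ qlt q [] := by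
  rintro (h | ⟨h, i, hi, -⟩)
  · simp at h
  · rw [h] at hi; simp at hi

theorem locA_qlt_cons {a b : On} {q r : List On} : qlt (a :: q) (b :: r) ↔
    q.length < r.length ∨ (q.length = r.length ∧ (a < b ∨ (a = b ∧ qlt q r))) := by
  constructor
  · rintro (h | ⟨h, i, hi, h1, h2⟩)
    · left; simpa using h
    · right
      have h' : q.length = r.length := by simpa using h
      refine ⟨h', ?_⟩
      rcases i with _ | i
      · left; simpa using h1
      · right
        refine ⟨by simpa using h2 0 (Nat.succ_pos i), Or.inr ⟨h', i, by simpa using hi,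
          by simpa using h1, fun j hj => ?_⟩⟩
        simpa using h2 (j + 1) (Nat.succ_lt_succ hj)
  · rintro (h | ⟨h, h1 | ⟨h1, h2 | ⟨-, i, hi, h2, h3⟩⟩⟩)
    · left; simpa using h
    · right
      exact ⟨by simpa using h, 0, by simp, by simpa using h1, fun j hj => absurd hj (by simp)⟩
    · omega
    · right
      refine ⟨by simpa using h, i + 1, by simpa using hi, by simpa using h2, fun j hj => ?_⟩
      rcases j with _ | j
      · simpa using h1
      · simpa using h3 j (Nat.lt_of_succ_lt_succ hj)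

theorem locA_qlt_iff (q r : List On) : qlt q r ↔ List.Shortlex (· < ·) q r := by
  induction q generalizing r with
  | nil =>
    rcases r with _ | ⟨b, r⟩
    · exact iff_of_false (locA_qlt_nil _) List.not_shortlex_nil_right
    · exact iff_of_true (Or.inl (by simp)) (List.Shortlex.of_length_lt (by simp))
  | cons a q ih =>
    rcases r with _ | ⟨b, r⟩
    · exact iff_of_false (locA_qlt_nil _) List.not_shortlex_nil_right
    · rw [locA_qlt_cons, List.shortlex_def, ih]
      simp only [List.length_cons, Nat.add_lt_add_iff_right, Nat.add_right_cancel_iff]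
      refine or_congr Iff.rfl (and_congr_right fun h => ?_)
      rw [List.shortlex_iff_lex h, List.cons_lex_cons_iff]

theorem qlt_wf : WellFounded qlt := by
  have h : qlt = List.Shortlex (· < ·) := by
    funext q r; exact propext (locA_qlt_iff q r)
  rw [h]
  exact List.Shortlex.wf wellFounded_lt

theorem qlt_tri (q r : List On) : qlt q r ∨ q = r ∨ qlt r q := by
  induction q generalizing r with
  | nil =>
    rcases r with _ | ⟨b, r⟩
    · exact Or.inr (Or.inl rfl)
    · exact Or.inl (Or.inl (by simp))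
  | cons a q ih =>
    rcases r with _ | ⟨b, r⟩
    · exact Or.inr (Or.inr (Or.inl (by simp)))
    · rw [locA_qlt_cons, locA_qlt_cons]
      rcases lt_trichotomy q.length r.length with h | h | h
      · exact Or.inl (Or.inl h)
      · rcases lt_trichotomy a b with h1 | h1 | h1
        · exact Or.inl (Or.inr ⟨h, Or.inl h1⟩)
        · rcases ih r with h2 | h2 | h2
          · exact Or.inl (Or.inr ⟨h, Or.inr ⟨h1, h2⟩⟩)
          · exact Or.inr (Or.inl (by rw [h1, h2]))
          · exact Or.inr (Or.inr (Or.inr ⟨h.symm, Or.inr ⟨h1.symm, h2⟩⟩))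
        · exact Or.inr (Or.inr (Or.inr ⟨h.symm, Or.inl h1⟩))
      · exact Or.inr (Or.inr (Or.inl h))

theorem qlt_trans {p q r : List On} (h1 : qlt p q) (h2 : qlt q r) : qlt p r := by
  induction p generalizing q r with
  | nil =>
    rcases r with _ | ⟨c, r⟩
    · exact absurd h2 (locA_qlt_nil _)
    · exact Or.inl (by simp)
  | cons a p ih =>
    rcases q with _ | ⟨b, q⟩
    · exact absurd h1 (locA_qlt_nil _)
    rcases r with _ | ⟨c, r⟩
    · exact absurd h2 (locA_qlt_nil _)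
    rw [locA_qlt_cons] at h1 h2 ⊢
    rcases h1 with h1 | ⟨h1, h1'⟩
    · rcases h2 with h2 | ⟨h2, -⟩ <;> exact Or.inl (by omega)
    rcases h2 with h2 | ⟨h2, h2'⟩
    · exact Or.inl (by omega)
    refine Or.inr ⟨h1.trans h2, ?_⟩
    rcases h1' with h3 | ⟨h3, h3'⟩
    · rcases h2' with h4 | ⟨h4, -⟩
      · exact Or.inl (h3.trans h4)
      · exact Or.inl (h4 ▸ h3)
    · rcases h2' with h4 | ⟨h4, h4'⟩
      · exact Or.inl (h3 ▸ h4)
      · exact Or.inr ⟨h3.trans h4, ih h3' h4'⟩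

theorem Loc.lt_wf : WellFounded Loc.lt := by
  have h : WellFounded (Prod.Lex (fun a b : On => a < b) (Prod.Lex (fun a b : ℕ => a < b)
      (Prod.Lex (fun a b : On => a < b) qlt))) :=
    WellFounded.prod_lex wellFounded_lt (WellFounded.prod_lex wellFounded_lt
      (WellFounded.prod_lex wellFounded_lt qlt_wf))
  refine Subrelation.wf (fun {x y} hxy => ?_)
    (InvImage.wf (fun x : Loc => (x.l, x.k, x.e, x.q)) h)
  simp only [InvImage, Prod.lex_def]
  exact hxy

theorem Loc.lt_tri (x y : Loc) : x.lt y ∨ x = y ∨ y.lt x := by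
  rcases lt_trichotomy x.l y.l with h | h | h
  · exact Or.inl (Or.inl h)
  · rcases lt_trichotomy x.k y.k with h1 | h1 | h1
    · exact Or.inl (Or.inr ⟨h, Or.inl h1⟩)
    · rcases lt_trichotomy x.e y.e with h2 | h2 | h2
      · exact Or.inl (Or.inr ⟨h, Or.inr ⟨h1, Or.inl h2⟩⟩)
      · rcases qlt_tri x.q y.q with h3 | h3 | h3
        · exact Or.inl (Or.inr ⟨h, Or.inr ⟨h1, Or.inr ⟨h2, h3⟩⟩⟩)
        · exact Or.inr (Or.inl (Loc.ext h h1 h2 h3))
        · exact Or.inr (Or.inr (Or.inr ⟨h.symm, Or.inr ⟨h1.symm, Or.inr ⟨h2.symm, h3⟩⟩⟩))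
      · exact Or.inr (Or.inr (Or.inr ⟨h.symm, Or.inr ⟨h1.symm, Or.inl h2⟩⟩))
    · exact Or.inr (Or.inr (Or.inr ⟨h.symm, Or.inl h1⟩))
  · exact Or.inr (Or.inr (Or.inl h))

theorem Loc.lt_trans {x y z : Loc} (h1 : x.lt y) (h2 : y.lt z) : x.lt z := by
  rcases h1 with h1 | ⟨a1, h1⟩
  · rcases h2 with h2 | ⟨a2, -⟩
    · exact Or.inl (h1.trans h2)
    · exact Or.inl (a2 ▸ h1)
  rcases h2 with h2 | ⟨a2, h2⟩
  · exact Or.inl (a1 ▸ h2)
  refine Or.inr ⟨a1.trans a2, ?_⟩
  rcases h1 with h1 | ⟨b1, h1⟩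
  · rcases h2 with h2 | ⟨b2, -⟩
    · exact Or.inl (h1.trans h2)
    · exact Or.inl (b2 ▸ h1)
  rcases h2 with h2 | ⟨b2, h2⟩
  · exact Or.inl (b1 ▸ h2)
  refine Or.inr ⟨b1.trans b2, ?_⟩
  rcases h1 with h1 | ⟨c1, h1⟩
  · rcases h2 with h2 | ⟨c2, -⟩
    · exact Or.inl (h1.trans h2)
    · exact Or.inl (c2 ▸ h1)
  rcases h2 with h2 | ⟨c2, h2⟩
  · exact Or.inl (c1 ▸ h2)
  exact Or.inr ⟨c1.trans c2, qlt_trans h1 h2⟩

theorem Loc.lt_irrefl (x : Loc) : ¬ x.lt x := Loc.lt_wf.irrefl.irrefl x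

theorem Loc.lt_asymm {x y : Loc} (h1 : x.lt y) : ¬ y.lt x := fun h2 =>
  Loc.lt_irrefl x (Loc.lt_trans h1 h2)

theorem locA_qlt_map {f : On → On} {S : Set On} (hf : StrictMonoOn f S) {q r : List On}
    (hq : ∀ a ∈ q, a ∈ S) (hr : ∀ a ∈ r, a ∈ S) : qlt (q.map f) (r.map f) ↔ qlt q r := by
  induction q generalizing r with
  | nil =>
    rcases r with _ | ⟨b, r⟩
    · exact Iff.rfl
    · exact iff_of_true (Or.inl (by simp)) (Or.inl (by simp))
  | cons a q ih =>
    rcases r with _ | ⟨b, r⟩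
    · exact iff_of_false (locA_qlt_nil _) (locA_qlt_nil _)
    · have ha := hq a (by simp)
      have hb := hr b (by simp)
      rw [List.map_cons, List.map_cons, locA_qlt_cons, locA_qlt_cons, List.length_map,
        List.length_map, hf.lt_iff_lt ha hb, hf.injOn.eq_iff ha hb,
        ih (fun c hc => hq c (by simp [hc])) (fun c hc => hr c (by simp [hc]))]

/-- The order of locations is invariant under maps that are strictly monotone on the entries. -/
theorem Loc.map_lt {f : On → On} {S : Set On} (hf : StrictMonoOn f S) {x y : Loc}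
    (hx : x.l ∈ S ∧ x.e ∈ S ∧ ∀ a ∈ x.q, a ∈ S) (hy : y.l ∈ S ∧ y.e ∈ S ∧ ∀ a ∈ y.q, a ∈ S) :
    (x.map f).lt (y.map f) ↔ x.lt y := by
  simp only [Loc.lt, Loc.map]
  rw [hf.lt_iff_lt hx.1 hy.1, hf.injOn.eq_iff hx.1 hy.1, hf.lt_iff_lt hx.2.1 hy.2.1,
    hf.injOn.eq_iff hx.2.1 hy.2.1, locA_qlt_map hf hx.2.2 hy.2.2]

open Classical in
/-- One step of the enumeration; `F` is the enumeration below `c`. -/
noncomputable def nxt (c : On) (F : On → Loc) : Loc :=
  if c < ω then ⟨0, 0, 0, []⟩ else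
    if h : {x : Loc | x.Valid ∧ ω ≤ x.l ∧ x.l < c ∧ (F x.l).l = x.l ∧
      ∀ d, ω ≤ d → d < c → F d ≠ x}.Nonempty then Loc.lt_wf.min _ h else ⟨c, 0, 0, []⟩

open Classical in
/-- The decomposition of an ordinal. -/
noncomputable def D : On → Loc :=
  (wellFounded_lt (α := On)).fix fun c ih => nxt c fun d => if h : d < c then ih d h else ⟨0, 0, 0, []⟩

theorem locA_nxt_congr {c : On} {F G : On → Loc} (h : ∀ d < c, F d = G d) :
    nxt c F = nxt c G := by
  have e : {x : Loc | x.Valid ∧ ω ≤ x.l ∧ x.l < c ∧ (F x.l).l = x.l ∧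
      ∀ d, ω ≤ d → d < c → F d ≠ x} = {x : Loc | x.Valid ∧ ω ≤ x.l ∧ x.l < c ∧ (G x.l).l = x.l ∧
      ∀ d, ω ≤ d → d < c → G d ≠ x} := by
    ext x
    simp only [mem_ofPred_eq]
    refine and_congr_right fun _ => and_congr_right fun _ => and_congr_right fun h1 => ?_
    rw [h _ h1]
    refine and_congr_right fun _ => forall_congr' fun d => forall_congr' fun _ =>
      forall_congr' fun h2 => ?_
    rw [h _ h2]
  unfold nxt
  generalize {x : Loc | x.Valid ∧ ω ≤ x.l ∧ x.l < c ∧ (F x.l).l = x.l ∧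
      ∀ d, ω ≤ d → d < c → F d ≠ x} = S at e
  subst e
  rfl

theorem D_eq (c : On) : D c = nxt c D := by
  conv_lhs => unfold D
  rw [WellFounded.fix_eq]
  refine locA_nxt_congr fun d hd => ?_
  rw [dif_pos hd]
  rfl

noncomputable def lev (c : On) : On := (D c).l
noncomputable def fml (c : On) : ℕ := (D c).k
noncomputable def cut (c : On) : On := (D c).e
noncomputable def par (c : On) : List On := (D c).q

theorem D_eta (c : On) : D c = ⟨lev c, fml c, cut c, par c⟩ := rfl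

def IsLev (l : On) : Prop := ω ≤ l ∧ lev l = l

/-- The ordinal with a given decomposition (`0` if there is none). -/
noncomputable def code (x : Loc) : On := sInf {c | ω ≤ c ∧ D c = x}

/-- The next level. -/
noncomputable def nl (c : On) : On := sInf {l | IsLev l ∧ c < l}

/-- Initial segments of the ordinals that are limits of levels (or all ordinals). -/
structure Nice (Λ : Set On) : Prop where
  lower : IsLowerSet Λ
  ne : Λ.Nonempty
  up : ∀ c ∈ Λ, ∃ l ∈ Λ, IsLev l ∧ c < l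

/-- Local characterisation of the decomposition on an initial segment. -/
structure Good (Λ : Set On) (F : On → Loc) : Prop where
  valid : ∀ c ∈ Λ, ω ≤ c → (F c).Valid ∧ ω ≤ (F c).l ∧ (F c).l ≤ c ∧
    F (F c).l = ⟨(F c).l, 0, 0, []⟩
  mono : ∀ c ∈ Λ, ∀ d ∈ Λ, ω ≤ c → c < d → (F c).lt (F d)
  new : ∀ c ∈ Λ, ω ≤ c → ∀ l k e, ω ≤ l → l ≤ c → (F l).l = l → e ≤ l →
    (Loc.mk l k e []).lt (F c) → ∃ d, ω ≤ d ∧ d < c ∧ F d = ⟨l, k, e, []⟩
  ins : ∀ c ∈ Λ, ω ≤ c → ∀ d, ω ≤ d → d < c → ∀ ξ < (F d).l,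
    (Loc.mk (F d).l (F d).k (F d).e (ξ :: (F d).q)).lt (F c) →
    ∃ d', ω ≤ d' ∧ d' < c ∧ F d' = ⟨(F d).l, (F d).k, (F d).e, ξ :: (F d).q⟩

/-- All valid locations of an existing level that precede `F c` are enumerated below `c`
(induction on the list). -/
theorem Good.down {Λ : Set On} {F : On → Loc} (h : Good Λ F) (hΛ : IsLowerSet Λ) {c : On}
    (hc : c ∈ Λ) (hω : ω ≤ c) (x : Loc) (hx : x.Valid) (h1 : ω ≤ x.l) (h2 : x.l ≤ c)
    (h3 : (F x.l).l = x.l) (h4 : x.lt (F c)) : ∃ d, ω ≤ d ∧ d < c ∧ F d = x := by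
  obtain ⟨l, k, e, q⟩ := x
  induction q with
  | nil => exact h.new c hc hω l k e h1 h2 h3 hx.1 h4
  | cons a q ih =>
    have hlt : (Loc.mk l k e q).lt ⟨l, k, e, a :: q⟩ :=
      Or.inr ⟨rfl, Or.inr ⟨rfl, Or.inr ⟨rfl, Or.inl (by simp)⟩⟩⟩
    obtain ⟨d, hd1, hd2, hd3⟩ := ih ⟨hx.1, fun b hb => hx.2 b (by simp [hb])⟩ h1 h2 h3
      (Loc.lt_trans hlt h4)
    have := h.ins c hc hω d hd1 hd2 a (by rw [hd3]; exact hx.2 a (by simp))
      (by rw [hd3]; exact h4)
    rwa [hd3] at this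

/-- The two cases of the enumeration step. -/
theorem locA_cases {c : On} (hω : ω ≤ c) :
    (((D c).Valid ∧ ω ≤ (D c).l ∧ (D c).l < c ∧ (D (D c).l).l = (D c).l ∧
      ∀ d, ω ≤ d → d < c → D d ≠ D c) ∨ D c = ⟨c, 0, 0, []⟩) ∧
    ∀ x : Loc, x.Valid → ω ≤ x.l → x.l < c → (D x.l).l = x.l →
      (∀ d, ω ≤ d → d < c → D d ≠ x) → ¬ x.lt (D c) := by
  by_cases h : {x : Loc | x.Valid ∧ ω ≤ x.l ∧ x.l < c ∧ (D x.l).l = x.l ∧
      ∀ d, ω ≤ d → d < c → D d ≠ x}.Nonempty
  · have e : D c = Loc.lt_wf.min _ h := by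
      rw [D_eq c, nxt, if_neg (not_lt.2 hω), dif_pos h]
    refine ⟨Or.inl ?_, fun x a1 a2 a3 a4 a5 => ?_⟩
    · have := Loc.lt_wf.min_mem _ h
      rw [← e] at this
      exact this
    · rw [e]
      refine Loc.lt_wf.not_lt_min _ ?_
      exact ⟨a1, a2, a3, a4, a5⟩
  · refine ⟨Or.inr ?_, fun x a1 a2 a3 a4 a5 => absurd ⟨x, a1, a2, a3, a4, a5⟩ h⟩
    rw [D_eq c, nxt, if_neg (not_lt.2 hω), dif_neg h]

theorem locA_lev {c : On} (hω : ω ≤ c) (h : (D c).l = c) : D c = ⟨c, 0, 0, []⟩ := by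
  rcases (locA_cases hω).1 with h1 | h1
  · exact absurd h h1.2.2.1.ne
  · exact h1

theorem locA_valid {c : On} (hω : ω ≤ c) : (D c).Valid ∧ ω ≤ (D c).l ∧ (D c).l ≤ c ∧
    D (D c).l = ⟨(D c).l, 0, 0, []⟩ := by
  rcases (locA_cases hω).1 with h1 | h1
  · exact ⟨h1.1, h1.2.1, h1.2.2.1.le, locA_lev h1.2.1 h1.2.2.2.1⟩
  · rw [h1]
    exact ⟨⟨zero_le, fun a ha => absurd ha (by simp)⟩, hω, le_rfl, h1⟩

theorem locA_down {c : On} (hω : ω ≤ c) (x : Loc) (hx : x.Valid) (h1 : ω ≤ x.l) (h2 : x.l ≤ c)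
    (h3 : (D x.l).l = x.l) (h4 : x.lt (D c)) : ∃ d, ω ≤ d ∧ d < c ∧ D d = x := by
  by_contra hn
  rcases h2.lt_or_eq with h2 | h2
  · exact (locA_cases hω).2 x hx h1 h2 h3 (fun d a1 a2 a3 => hn ⟨d, a1, a2, a3⟩) h4
  · rw [h2] at h3
    rw [locA_lev hω h3] at h4
    rcases h4 with h4 | ⟨-, h4 | ⟨-, h4 | ⟨-, h4⟩⟩⟩
    · exact absurd h2 h4.ne
    · exact absurd h4 (by simp)
    · exact absurd h4 (by simp)
    · exact locA_qlt_nil _ h4

theorem locA_ne {c d : On} (hω : ω ≤ c) (h : c < d) : D c ≠ D d := by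
  rcases (locA_cases (hω.trans h.le)).1 with h1 | h1
  · exact h1.2.2.2.2 c hω h
  · intro e
    have := (locA_valid hω).2.2.1
    rw [e, h1] at this
    exact absurd h (not_lt.2 this)

theorem locA_l_le {x y : Loc} (h : x.lt y) : x.l ≤ y.l := by
  rcases h with h | h
  · exact h.le
  · exact h.1.le

/-- Hint: `valid` by strong induction from `D_eq` (elements of the set in `nxt` have level `< c`, so
if `(D l).l = l` then `D l` came from the last branch); then the statement of `Good.down` directly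
from minimality; then `mono` by trichotomy. -/
theorem good_D : Good univ D := by
  refine ⟨fun c _ hω => locA_valid hω, fun c _ d _ hω h => ?_,
    fun c _ hω l k e a1 a2 a3 a4 a5 => ?_, fun c _ hω d a1 a2 ξ a3 a4 => ?_⟩
  · rcases Loc.lt_tri (D c) (D d) with h1 | h1 | h1
    · exact h1
    · exact absurd h1 (locA_ne hω h)
    · obtain ⟨b1, b2, -, b4⟩ := locA_valid (hω.trans h.le)
      obtain ⟨d', c1, c2, c3⟩ := locA_down hω (D d) b1 b2
        ((locA_l_le h1).trans (locA_valid hω).2.2.1) (by rw [b4]) h1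
      exact absurd c3 (locA_ne c1 (c2.trans h))
  · exact locA_down hω ⟨l, k, e, []⟩ ⟨a4, fun a ha => absurd ha (by simp)⟩ a1 a2 a3 a5
  · obtain ⟨b1, b2, b3, b4⟩ := locA_valid a1
    refine locA_down hω ⟨(D d).l, (D d).k, (D d).e, ξ :: (D d).q⟩ ⟨b1.1, fun a ha => ?_⟩ b2
      (b3.trans a2.le) (by rw [b4]) a4
    rcases List.mem_cons.1 ha with rfl | ha
    · exact a3
    · exact b1.2 a ha

theorem locA_not_lt {Λ : Set On} {F G : On → Loc} (hF : Good Λ F) (hG : Good Λ G)
    (hΛ : IsLowerSet Λ) {c : On} (hc : c ∈ Λ) (hω : ω ≤ c)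
    (h : ∀ d < c, ω ≤ d → F d = G d) : ¬ (F c).lt (G c) := by
  intro hlt
  obtain ⟨b1, b2, b3, b4⟩ := hF.valid c hc hω
  have e : (G (F c).l).l = (F c).l := by
    rcases b3.lt_or_eq with b3 | b3
    · rw [← h _ b3 b2, b4]
    · have := locA_l_le hlt
      rw [b3] at this ⊢
      exact le_antisymm (hG.valid c hc hω).2.2.1 this
  obtain ⟨d, c1, c2, c3⟩ := hG.down hΛ hc hω (F c) b1 b2 b3 e hlt
  have := hF.mono d (hΛ c2.le hc) c hc c1 c2
  rw [h d c2 c1, c3] at this
  exact Loc.lt_irrefl _ this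

/-- Hint: strong induction; if `F c` and `D c` differ apply `Good.down` to the larger one. -/
theorem Good.unique {Λ : Set On} {F : On → Loc} (h : Good Λ F) (hΛ : IsLowerSet Λ) :
    ∀ c ∈ Λ, ω ≤ c → F c = D c := by
  have hD : Good Λ D := ⟨fun c _ => good_D.valid c trivial,
    fun c _ d _ => good_D.mono c trivial d trivial, fun c _ => good_D.new c trivial,
    fun c _ => good_D.ins c trivial⟩
  intro c
  induction c using WellFoundedLT.induction with
  | ind c ih =>
    intro hc hω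
    have e : ∀ d < c, ω ≤ d → F d = D d := fun d hd h1 => ih d hd (hΛ hd.le hc) h1
    rcases Loc.lt_tri (F c) (D c) with h1 | h1 | h1
    · exact absurd h1 (locA_not_lt h hD hΛ hc hω e)
    · exact h1
    · exact absurd h1 (locA_not_lt hD h hΛ hc hω fun d hd h2 => (e d hd h2).symm)

theorem D_small {c : On} (h : c < ω) : D c = ⟨0, 0, 0, []⟩ := by
  rw [D_eq, nxt, if_pos h]

theorem valid_D (c : On) : (D c).Valid := by
  rcases lt_or_ge c ω with h | h
  · rw [D_small h]
    exact ⟨le_rfl, fun a ha => absurd ha List.not_mem_nil⟩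
  · exact (good_D.valid c trivial h).1

theorem cut_le_lev (c : On) : cut c ≤ lev c := (valid_D c).1

theorem par_lt_lev {c a : On} (h : a ∈ par c) : a < lev c := (valid_D c).2 a h

theorem lev_le (c : On) : lev c ≤ c := by
  rcases lt_or_ge c ω with h | h
  · rw [lev, D_small h]
    exact zero_le
  · exact (good_D.valid c trivial h).2.2.1

theorem cut_le (c : On) : cut c ≤ c := (cut_le_lev c).trans (lev_le c)

theorem par_lt {c a : On} (h : a ∈ par c) : a < c := (par_lt_lev h).trans_le (lev_le c)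

theorem par_getD_le (c : On) (i : ℕ) : (par c).getD i 0 ≤ c := by
  rcases lt_or_ge i (par c).length with h | h
  · rw [List.getD_eq_getElem _ _ h]
    exact (par_lt (List.getElem_mem h)).le
  · rw [List.getD_eq_default _ _ h]
    exact zero_le

theorem isLev_lev {c : On} (h : ω ≤ c) : IsLev (lev c) := by
  have h1 := congrArg Loc.l (good_D.valid c trivial h).2.2.2
  exact ⟨(good_D.valid c trivial h).2.1, h1⟩

theorem IsLev.D_eq {l : On} (h : IsLev l) : D l = ⟨l, 0, 0, []⟩ := by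
  have h1 := (good_D.valid l trivial h.1).2.2.2
  rwa [show (D l).l = l from h.2] at h1

theorem isLev_omega : IsLev ω := by
  exact ⟨le_rfl, le_antisymm (lev_le _) (isLev_lev le_rfl).1⟩

theorem D_lt_iff {c d : On} (hc : ω ≤ c) (hd : ω ≤ d) : (D c).lt (D d) ↔ c < d := by
  refine ⟨fun h => ?_, good_D.mono c trivial d trivial hc⟩
  rcases lt_trichotomy c d with h1 | rfl | h1
  · exact h1
  · exact absurd h (Loc.lt_irrefl _)
  · exact absurd (good_D.mono d trivial c trivial hd h1) (Loc.lt_asymm h)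

theorem D_inj {c d : On} (hc : ω ≤ c) (hd : ω ≤ d) (h : D c = D d) : c = d := by
  rcases lt_trichotomy c d with h1 | h1 | h1
  · exact absurd (h ▸ (D_lt_iff hc hd).2 h1) (Loc.lt_irrefl _)
  · exact h1
  · exact absurd (h ▸ (D_lt_iff hd hc).2 h1) (Loc.lt_irrefl _)

theorem lev_mono {c d : On} (h : c ≤ d) : lev c ≤ lev d := by
  rcases lt_or_ge c ω with h1 | h1
  · rw [lev, D_small h1]
    exact zero_le
  rcases h.eq_or_lt with rfl | h2
  · exact le_rfl
  · rcases (D_lt_iff h1 (h1.trans h)).2 h2 with h3 | h3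
    · exact h3.le
    · exact h3.1.le

/-- Hint: otherwise `D` injects `Ici ω` into a small set of locations. -/
theorem exists_lev (c : On) : ∃ l, IsLev l ∧ c < l := by
  by_contra hn
  have h1 : ∀ d : Ici (ω : On), lev d ≤ c := fun d =>
    not_lt.1 fun h => hn ⟨_, isLev_lev d.2, h⟩
  let f : Ici (ω : On) → Iic c × ℕ × Iic c × List (Iic c) := fun d =>
    (⟨lev d, h1 d⟩, fml d, ⟨cut d, (cut_le_lev _).trans (h1 d)⟩,
      (par d).attachWith _ fun a ha => (par_lt_lev ha).le.trans (h1 d))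
  have hf : Function.Injective f := fun d d' h => by
    simp only [f, Prod.mk.injEq, Subtype.mk.injEq] at h
    obtain ⟨a1, a2, a3, a4⟩ := h
    have a5 := congrArg (List.map Subtype.val) a4
    rw [List.attachWith_map_subtype_val, List.attachWith_map_subtype_val] at a5
    exact Subtype.ext (D_inj d.2 d'.2 (Loc.ext a1 a2 a3 a5))
  have := small_of_injective hf
  exact not_bddAbove_Ici (ω : On) bddAbove_of_small

theorem locb_code {x : Loc} (h1 : IsLev x.l) (h2 : x.Valid) : ω ≤ code x ∧ D (code x) = x := by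
  obtain ⟨l, hl, hx⟩ := exists_lev x.l
  obtain ⟨d, a, -, b⟩ := good_D.down isLowerSet_univ (mem_univ l) hl.1 x h2 h1.1 hx.le h1.2
    (by rw [hl.D_eq]; exact Or.inl hx)
  exact csInf_mem (s := {c | ω ≤ c ∧ D c = x}) ⟨d, a, b⟩

theorem D_code {x : Loc} (h1 : IsLev x.l) (h2 : x.Valid) : D (code x) = x := by
  exact (locb_code h1 h2).2

theorem omega_le_code {x : Loc} (h1 : IsLev x.l) (h2 : x.Valid) : ω ≤ code x := by
  exact (locb_code h1 h2).1

theorem code_D {c : On} (h : ω ≤ c) : code (D c) = c := by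
  exact D_inj (omega_le_code (isLev_lev h) (valid_D c)) h (D_code (isLev_lev h) (valid_D c))

theorem code_invalid {x : Loc} (h : ¬ (IsLev x.l ∧ x.Valid)) : code x = 0 := by
  have h1 : {c | ω ≤ c ∧ D c = x} = ∅ := eq_empty_of_forall_notMem fun c hc =>
    h (hc.2 ▸ ⟨isLev_lev hc.1, valid_D c⟩)
  rw [code, h1, Ordinal.sInf_empty]

theorem eq_code_iff {x : Loc} (h1 : IsLev x.l) (h2 : x.Valid) {c : On} :
    c = code x ↔ ω ≤ c ∧ D c = x := by
  exact ⟨fun h => h ▸ locb_code h1 h2, fun h => by rw [← h.2, code_D h.1]⟩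

theorem le_code {x : Loc} (h1 : IsLev x.l) (h2 : x.Valid) : x.l ≤ code x := by
  have h := lev_le (code x)
  rwa [lev, D_code h1 h2] at h

theorem code_lt_code {x y : Loc} (h1 : IsLev x.l) (h2 : x.Valid) (h3 : IsLev y.l) (h4 : y.Valid) :
    code x < code y ↔ x.lt y := by
  rw [← D_lt_iff (omega_le_code h1 h2) (omega_le_code h3 h4), D_code h1 h2, D_code h3 h4]

theorem code_lt_lev {x : Loc} {l : On} (h : IsLev l) (hx : x.l < l) : code x < l := by
  by_cases h1 : IsLev x.l ∧ x.Valid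
  · rw [← D_lt_iff (omega_le_code h1.1 h1.2) h.1, D_code h1.1 h1.2, h.D_eq]
    exact Or.inl hx
  · rw [code_invalid h1]
    exact omega0_pos.trans_le h.1

theorem isLev_nl (c : On) : IsLev (nl c) := by
  exact (csInf_mem (s := {l | IsLev l ∧ c < l}) (exists_lev c)).1

theorem lt_nl (c : On) : c < nl c := by
  exact (csInf_mem (s := {l | IsLev l ∧ c < l}) (exists_lev c)).2

theorem nl_le {c l : On} (h : IsLev l) (hc : c < l) : nl c ≤ l := by
  exact csInf_le' ⟨h, hc⟩

theorem nl_mono {c d : On} (h : c ≤ d) : nl c ≤ nl d := by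
  exact nl_le (isLev_nl d) (h.trans_lt (lt_nl d))

theorem nl_lev (c : On) : nl (lev c) = nl c := by
  refine le_antisymm (nl_mono (lev_le c)) (nl_le (isLev_nl _) (not_le.1 fun h => ?_))
  have h1 := lev_mono h
  rw [(isLev_nl _).2] at h1
  exact h1.not_gt (lt_nl _)

theorem code_lt_nl (x : Loc) : code x < nl x.l := code_lt_lev (isLev_nl _) (lt_nl _)

theorem le_lev {l c : On} (h : IsLev l) (hc : l ≤ c) : l ≤ lev c := by
  exact h.2.ge.trans (lev_mono hc)

theorem lev_eq {l c : On} (h : IsLev l) (h1 : l ≤ c) (h2 : c < nl l) : lev c = l := by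
  refine le_antisymm (not_lt.1 fun h3 => ?_) (le_lev h h1)
  exact ((nl_le (isLev_lev (h.1.trans h1)) h3).trans (lev_le c)).not_gt h2

theorem Nice.omega_mem {Λ : Set On} (h : Nice Λ) : ω ∈ Λ := by
  obtain ⟨c, hc⟩ := h.ne
  obtain ⟨l, a, b, -⟩ := h.up c hc
  exact h.lower b.1 a

theorem Nice.nat_mem {Λ : Set On} (h : Nice Λ) (n : ℕ) : (n : On) ∈ Λ := by
  exact h.lower (natCast_lt_omega0 n).le h.omega_mem

theorem Nice.zero_mem {Λ : Set On} (h : Nice Λ) : (0 : On) ∈ Λ := by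
  simpa using h.nat_mem 0

theorem Nice.nl_mem {Λ : Set On} (h : Nice Λ) {c : On} (hc : c ∈ Λ) : nl c ∈ Λ := by
  obtain ⟨l, a, b, d⟩ := h.up c hc
  exact h.lower (nl_le b d) a

theorem Nice.code_mem {Λ : Set On} (h : Nice Λ) {x : Loc} (hx : x.l ∈ Λ) : code x ∈ Λ := by
  exact h.lower (code_lt_nl x).le (h.nl_mem hx)

theorem Nice.succ_mem {Λ : Set On} (h : Nice Λ) {c : On} (hc : c ∈ Λ) : c + 1 ∈ Λ := by
  exact h.lower (Order.add_one_le_of_lt (lt_nl c)) (h.nl_mem hc)

/-- A limit of levels is a level. -/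
theorem Nice.isLev {l : On} (h : Nice (Iio l)) : IsLev l := by
  refine ⟨le_of_lt h.omega_mem, (lev_le l).eq_of_not_lt fun k => ?_⟩
  obtain ⟨m, a, b, d⟩ := h.up _ k
  exact d.not_ge (le_lev b (le_of_lt a))

theorem Nice.isSuccLimit {l : On} (h : Nice (Iio l)) : Order.IsSuccLimit l := by
  refine ⟨not_isMin_of_lt (mem_Iio.1 h.zero_mem), Order.isSuccPrelimit_of_succ_lt fun a k => ?_⟩
  exact h.succ_mem k

theorem nice_univ : Nice univ := ⟨isLowerSet_univ, univ_nonempty, fun c _ =>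
  (exists_lev c).imp fun _ h => ⟨trivial, h⟩⟩

/-- Hint: `D` injects `[ω, nl c)` into the valid locations of level `≤ c`. -/
theorem card_nl (c : On) : (nl c).card ≤ max c.card Cardinal.aleph0 := by
  let f : Iic c × ULift.{1} ℕ × Iic c × List (Iic c) → On := fun p =>
    code ⟨p.1.1, p.2.1.down, p.2.2.1.1, p.2.2.2.map Subtype.val⟩
  have h1 : Iio (nl c) ⊆ Iio ω ∪ range f := fun d hd => by
    rcases lt_or_ge d ω with k | k
    · exact Or.inl k
    · have a : lev d ≤ c := le_of_not_gt fun m =>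
        (lt_of_le_of_lt (lev_le d) hd).not_ge (nl_le (isLev_lev k) m)
      obtain ⟨q, hq⟩ : ∃ q : List (Iic c), q.map Subtype.val = par d :=
        CanLift.prf (par d) fun x hx => (par_lt_lev hx).le.trans a
      refine Or.inr ⟨⟨⟨_, a⟩, ⟨fml d⟩, ⟨_, (cut_le_lev d).trans a⟩, q⟩, ?_⟩
      simp only [f, hq]
      exact code_D k
  have h0 : Cardinal.aleph0 ≤ Cardinal.lift.{1} (max c.card Cardinal.aleph0) :=
    Cardinal.aleph0_le_lift.2 (le_max_right _ _)
  have h2 : Cardinal.mk (Iic c) ≤ Cardinal.lift.{1} (max c.card Cardinal.aleph0) := by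
    rw [← Order.Iio_succ, Order.succ_eq_add_one, Cardinal.mk_Iio_ordinal, Cardinal.lift_le, Ordinal.card_add_one]
    exact Cardinal.add_le_of_le (le_max_right _ _) (le_max_left _ _)
      (Cardinal.one_le_aleph0.trans (le_max_right _ _))
  have h3 : ∀ {a b : Cardinal.{1}}, a ≤ Cardinal.lift.{1} (max c.card Cardinal.aleph0) →
      b ≤ Cardinal.lift.{1} (max c.card Cardinal.aleph0) →
      a * b ≤ Cardinal.lift.{1} (max c.card Cardinal.aleph0) := fun a b =>
    (mul_le_mul' a b).trans (Cardinal.mul_eq_self h0).le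
  rw [← Cardinal.lift_le.{1}, ← Cardinal.mk_Iio_ordinal]
  refine ((Cardinal.mk_le_mk_of_subset h1).trans (Cardinal.mk_union_le _ _)).trans
    (Cardinal.add_le_of_le h0 ?_ (Cardinal.mk_range_le.trans ?_))
  · rw [Cardinal.mk_Iio_ordinal, Cardinal.lift_le, Ordinal.card_omega0]
    exact le_max_right _ _
  · simp only [Cardinal.mk_prod, Cardinal.lift_id]
    refine h3 h2 (h3 ?_ (h3 h2 ((Cardinal.mk_list_le_max _).trans (max_le h0 h2))))
    exact Cardinal.mk_le_aleph0.trans h0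

theorem nice_ord {κ : Cardinal.{0}} (h : Cardinal.aleph0 < κ) : Nice (Iio κ.ord) := by
  refine ⟨isLowerSet_Iio _, ⟨0, mem_Iio.2 (Cardinal.lt_ord.2 ?_)⟩, fun c hc => ⟨nl c, ?_, isLev_nl c, lt_nl c⟩⟩
  · simpa using Cardinal.aleph0_pos.trans h
  · exact Cardinal.lt_ord.2 ((card_nl c).trans_lt (max_lt (Cardinal.lt_ord.1 hc) h))

/-- The least nice level above `c`. -/
noncomputable def nn (c : On) : On := sInf {l | Nice (Iio l) ∧ c < l}

/-- Hint: the supremum of the iterates of `nl`. -/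
theorem nn_spec (c : On) : Nice (Iio (nn c)) ∧ c < nn c ∧
    (nn c).card ≤ max c.card Cardinal.aleph0 := by
  have h1 : ∀ n : ℕ, nl^[n] c < ⨆ n : ℕ, nl^[n] c := fun n => by
    refine lt_of_lt_of_le ?_ (Ordinal.le_iSup (fun n : ℕ => nl^[n] c) (n + 1))
    rw [Function.iterate_succ_apply']
    exact lt_nl _
  have h2 : (⨆ n : ℕ, nl^[n] c) ∈ {l | Nice (Iio l) ∧ c < l} := by
    refine ⟨⟨isLowerSet_Iio _, ⟨c, h1 0⟩, fun d hd => ?_⟩, h1 0⟩
    obtain ⟨n, hn⟩ := Ordinal.lt_iSup_iff.1 hd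
    refine ⟨nl (nl^[n] c), ?_, isLev_nl _, hn.trans (lt_nl _)⟩
    have := h1 (n + 1)
    rwa [Function.iterate_succ_apply'] at this
  have h3 : ∀ n : ℕ, (nl^[n] c).card ≤ max c.card Cardinal.aleph0 := fun n => by
    induction n with
    | zero => exact le_max_left _ _
    | succ n ih =>
      rw [Function.iterate_succ_apply']
      exact (card_nl _).trans (max_le ih (le_max_right _ _))
  have h4 := csInf_mem ⟨_, h2⟩
  refine ⟨h4.1, h4.2, (Ordinal.card_le_card (csInf_le' h2)).trans ?_⟩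
  refine (Ordinal.card_iSup_le_sum_card _).trans ((Cardinal.sum_le_sum _ _ h3).trans ?_)
  rw [Cardinal.sum_const', Cardinal.mk_nat]
  exact (mul_le_mul' (le_max_right _ _) le_rfl).trans (Cardinal.mul_eq_self (le_max_right _ _)).le

theorem nn_le {c l : On} (h : Nice (Iio l)) (hc : c < l) : nn c ≤ l := by
  exact csInf_le' ⟨h, hc⟩

/-- A new location with an empty list. -/
noncomputable def new (l : On) (k : ℕ) (e : On) : On := code ⟨l, k, e, []⟩
/-- Insert a parameter in front. -/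
noncomputable def ins (c ξ : On) : On := code ⟨lev c, fml c, cut c, ξ :: par c⟩
/-- Move to the level `l`, with full cutoff. -/
noncomputable def mov (c l : On) : On := code ⟨l, fml c, l, par c⟩
/-- Change the cutoff. -/
noncomputable def rct (c e : On) : On := code ⟨lev c, fml c, e, par c⟩

section simp_lemmas
variable {x : Loc} (h1 : IsLev x.l) (h2 : x.Valid)
include h1 h2
theorem lev_code : lev (code x) = x.l := congrArg Loc.l (D_code h1 h2)
theorem fml_code : fml (code x) = x.k := congrArg Loc.k (D_code h1 h2)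
theorem cut_code : cut (code x) = x.e := congrArg Loc.e (D_code h1 h2)
theorem par_code : par (code x) = x.q := congrArg Loc.q (D_code h1 h2)
end simp_lemmas

theorem locc_valid {c ξ : On} (h : ξ < lev c) :
    (Loc.mk (lev c) (fml c) (cut c) (ξ :: par c)).Valid :=
  ⟨cut_le_lev c, fun _ k => (List.mem_cons.1 k).elim (fun e => e ▸ h) par_lt_lev⟩

theorem D_ins {c ξ : On} (hc : ω ≤ c) (h : ξ < lev c) :
    ω ≤ ins c ξ ∧ D (ins c ξ) = ⟨lev c, fml c, cut c, ξ :: par c⟩ := by
  exact ⟨omega_le_code (isLev_lev hc) (locc_valid h), D_code (isLev_lev hc) (locc_valid h)⟩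

theorem lt_ins {c ξ : On} (hc : ω ≤ c) (h : ξ < lev c) : c < ins c ξ := by
  rw [← D_lt_iff hc (D_ins hc h).1, (D_ins hc h).2]
  exact Or.inr ⟨rfl, Or.inr ⟨rfl, Or.inr ⟨rfl, Or.inl (Nat.lt_succ_self _)⟩⟩⟩

theorem ins_code {l : On} {k : ℕ} {e : On} {q : List On} (h1 : IsLev l)
    (h2 : (Loc.mk l k e q).Valid) (ξ : On) : ins (code ⟨l, k, e, q⟩) ξ = code ⟨l, k, e, ξ :: q⟩ := by
  rw [ins, lev_code h1 h2, fml_code h1 h2, cut_code h1 h2, par_code h1 h2]

theorem rct_le {c e : On} (h : e ≤ cut c) : rct c e ≤ c := by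
  rcases lt_or_ge c ω with k | k
  · rw [rct, code_invalid (x := ⟨lev c, fml c, e, par c⟩) fun a =>
      (a.1.1.trans (lev_le c)).not_gt k]
    exact zero_le
  · rcases h.eq_or_lt with rfl | h'
    · exact (code_D k).le
    · have a : (Loc.mk (lev c) (fml c) e (par c)).Valid :=
        ⟨h.trans (cut_le_lev c), fun _ => par_lt_lev⟩
      have b := (code_lt_code (x := ⟨lev c, fml c, e, par c⟩) (y := D c) (isLev_lev k) a
        (isLev_lev k) (valid_D c)).2
        (Or.inr ⟨rfl, Or.inr ⟨rfl, Or.inl h'⟩⟩)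
      rw [code_D k] at b
      exact b.le

end Pool.Agent.MP_fd3eaf_lc
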