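import Pool.Agent.MP_fd3eaf_lc.Defs
import Pool.Agent.MP_fd3eaf_lc.Loc

/-!
First-order definability: over arbitrary structures (`FO`), over transitive classes of sets (`ZD`,
with a flag for bounded formulas) and with a level of the Levy hierarchy (`ZS`).
-/

set_option autoImplicit false

namespace Pool.Agent.MP_fd3eaf_lc

open Pool.Agent.Lib.Forcing ZFSet

/-- The assignment `a, v 0, v 1, ...`. -/
def sc {α : Type 1} (a : α) (v : ℕ → α) : ℕ → α
  | 0 => a
  | n + 1 => v n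

@[simp] theorem sc_zero {α : Type 1} (a : α) (v : ℕ → α) : sc a v 0 = a := rfl

@[simp] theorem sc_succ {α : Type 1} (a : α) (v : ℕ → α) (n : ℕ) : sc a v (n + 1) = v n := rfl

theorem sc_mem {α : Type 1} {S : Set α} {a : α} {v : ℕ → α} (ha : a ∈ S) (hv : ∀ n, v n ∈ S) :
    ∀ n, sc a v n ∈ S
  | 0 => ha
  | n + 1 => hv n

theorem sat_satIn {M : Type 1} (E : M → M → Prop) (φ : Fml) (v : ℕ → M) :
    Sat E φ v ↔ SatIn E (fun _ => True) φ v := by
  induction φ generalizing v with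
  | mem i j => rfl
  | eq i j => rfl
  | neg φ ih => exact not_congr (ih v)
  | and φ ψ ih ih' => exact and_congr (ih v) (ih' v)
  | all i φ ih => exact forall_congr' fun a => (ih _).trans true_imp_iff.symm

/-- A bound for the variables. -/
def zda_bd : Fml → ℕ
  | .mem i j => max i j + 1
  | .eq i j => max i j + 1
  | .neg φ => zda_bd φ
  | .and φ ψ => max (zda_bd φ) (zda_bd ψ)
  | .all _ φ => zda_bd φ

theorem zda_irrel {M : Type 1} (E : M → M → Prop) (P : M → Prop) (φ : Fml) (v w : ℕ → M)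
    (h : ∀ i < zda_bd φ, v i = w i) : SatIn E P φ v ↔ SatIn E P φ w := by
  induction φ generalizing v w with
  | mem i j =>
    simp only [SatIn, zda_bd] at h ⊢
    rw [h i (by omega), h j (by omega)]
  | eq i j =>
    simp only [SatIn, zda_bd] at h ⊢
    rw [h i (by omega), h j (by omega)]
  | neg φ ih => exact not_congr (ih v w h)
  | and φ ψ ih ih' =>
    exact and_congr (ih v w fun i hi => h i (lt_max_of_lt_left hi))
      (ih' v w fun i hi => h i (lt_max_of_lt_right hi))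
  | all j φ ih =>
    refine forall_congr' fun a => imp_congr_right fun _ => ih _ _ fun i hi => ?_
    rw [Function.update_apply, Function.update_apply, h i hi]

/-- Only finitely many variables matter. -/
theorem fml_irrel (φ : Fml) : ∃ n, ∀ {M : Type 1} (E : M → M → Prop) (P : M → Prop)
    (v w : ℕ → M), (∀ i < n, v i = w i) → (SatIn E P φ v ↔ SatIn E P φ w) :=
  ⟨zda_bd φ, fun E P => zda_irrel E P φ⟩

/-- Renaming with fresh bound variables from `d` on. -/
def zda_rn : Fml → (ℕ → ℕ) → ℕ → Fml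
  | .mem i j, ρ, _ => .mem (ρ i) (ρ j)
  | .eq i j, ρ, _ => .eq (ρ i) (ρ j)
  | .neg φ, ρ, d => .neg (zda_rn φ ρ d)
  | .and φ ψ, ρ, d => .and (zda_rn φ ρ d) (zda_rn ψ ρ d)
  | .all i φ, ρ, d => .all d (zda_rn φ (Function.update ρ i d) (d + 1))

theorem zda_step {n d : ℕ} {ρ : ℕ → ℕ} (h : ∀ i < n, ρ i < d) (j : ℕ) :
    ∀ i < n, Function.update ρ j d i < d + 1 := fun i hi => by
  rw [Function.update_apply]
  split_ifs
  exacts [Nat.lt_succ_self d, Nat.lt_succ_of_lt (h i hi)]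

theorem zda_rn_sat {M : Type 1} (E : M → M → Prop) (P : M → Prop) (φ : Fml) (ρ : ℕ → ℕ) (d : ℕ)
    (h : ∀ i < zda_bd φ, ρ i < d) (v : ℕ → M) :
    SatIn E P (zda_rn φ ρ d) v ↔ SatIn E P φ (v ∘ ρ) := by
  induction φ generalizing ρ d v with
  | mem i j => rfl
  | eq i j => rfl
  | neg φ ih => exact not_congr (ih ρ d h v)
  | and φ ψ ih ih' =>
    exact and_congr (ih ρ d (fun i hi => h i (lt_max_of_lt_left hi)) v)
      (ih' ρ d (fun i hi => h i (lt_max_of_lt_right hi)) v)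
  | all j φ ih =>
    refine forall_congr' fun a => imp_congr_right fun _ =>
      (ih _ _ (zda_step h j) _).trans (zda_irrel E P φ _ _ fun i hi => ?_)
    by_cases e : i = j
    · simp [e]
    · simp [e, (h i hi).ne]

theorem zda_rn_delta {φ : Fml} (hφ : Delta0 φ) (ρ : ℕ → ℕ) (d : ℕ)
    (h : ∀ i < zda_bd φ, ρ i < d) : Delta0 (zda_rn φ ρ d) := by
  induction hφ generalizing ρ d with
  | mem i j => exact .mem _ _
  | eq i j => exact .eq _ _
  | neg _ ih => exact .neg (ih ρ d h)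
  | and _ _ ih ih' =>
    exact .and (ih ρ d fun i hi => h i (lt_max_of_lt_left hi))
      (ih' ρ d fun i hi => h i (lt_max_of_lt_right hi))
  | ball i j e _ ih =>
    simp only [zda_rn, Function.update_self, Function.update_of_ne e.symm]
    exact .ball _ _ (h j (lt_max_of_lt_left (Nat.lt_succ_of_le (le_max_right i j)))).ne'
      (ih _ _ (zda_step (fun n hn => h n (lt_max_of_lt_right hn)) i))

theorem zda_rn_sig {n : ℕ} {φ : Fml} (hφ : Sig n φ) (ρ : ℕ → ℕ) (d : ℕ)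
    (h : ∀ i < zda_bd φ, ρ i < d) : Sig n (zda_rn φ ρ d) := by
  induction hφ generalizing ρ d with
  | zero h0 => exact .zero (zda_rn_delta h0 ρ d h)
  | up _ ih => exact .up (ih ρ d h)
  | ex i _ ih => exact .ex d (ih _ _ (zda_step h i))

/-- Renaming.  Hint: define `rn φ ρ d` with `rn (all i φ) ρ d = all d (rn φ (update ρ i d) (d+1))`;
it is correct if `ρ i < d` for all `i` below a bound for the variables of `φ`. -/
theorem fml_ren (φ : Fml) (g : ℕ → ℕ) : ∃ ψ : Fml, (Delta0 φ → Delta0 ψ) ∧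
    (∀ n, Sig n φ → Sig n ψ) ∧ ∀ {M : Type 1} (E : M → M → Prop) (P : M → Prop) (v : ℕ → M),
      SatIn E P ψ v ↔ SatIn E P φ (v ∘ g) := by
  have h : ∀ i < zda_bd φ, g i < (Finset.range (zda_bd φ)).sup g + 1 := fun i hi =>
    Nat.lt_succ_of_le (Finset.le_sup (f := g) (Finset.mem_range.2 hi))
  exact ⟨zda_rn φ g _, fun k => zda_rn_delta k g _ h, fun _ k => zda_rn_sig k g _ h,
    fun E P => zda_rn_sat E P φ g _ h⟩

/-- The variable `0` becomes a fresh named variable `d`. -/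
theorem fml_bind (φ : Fml) (j : ℕ) : ∃ (d : ℕ) (ψ : Fml), j < d ∧ (Delta0 φ → Delta0 ψ) ∧
    (∀ n, Sig n φ → Sig n ψ) ∧ ∀ {M : Type 1} (E : M → M → Prop) (P : M → Prop) (v : ℕ → M)
      (a : M), SatIn E P ψ (Function.update v d a) ↔ SatIn E P φ (sc a v) := by
  obtain ⟨ψ, h1, h2, h3⟩ := fml_ren φ fun i => Nat.casesOn i (j + zda_bd φ + 1) id
  refine ⟨j + zda_bd φ + 1, ψ, by omega, h1, h2, fun E P v a =>
    (h3 E P _).trans (zda_irrel E P φ _ _ ?_)⟩
  rintro (_ | i) hi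
  · exact Function.update_self ..
  · exact Function.update_of_ne (by omega : i ≠ j + zda_bd φ + 1) a v

/-- Properties that are expressed by one formula in all structures. -/
class FO (P : ∀ M : Type 1, (M → M → Prop) → (ℕ → M) → Prop) : Prop where
  ex : ∃ φ : Fml, ∀ M E v, Sat E φ v ↔ P M E v

namespace FO

variable (P Q : ∀ M : Type 1, (M → M → Prop) → (ℕ → M) → Prop)

theorem congr {P Q : ∀ M : Type 1, (M → M → Prop) → (ℕ → M) → Prop} [h : FO P]
    (e : ∀ M E v, P M E v ↔ Q M E v) : FO Q := by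
  obtain ⟨φ, h⟩ := h.ex
  exact ⟨φ, fun M E v => (h M E v).trans (e M E v)⟩

theorem rename [h : FO P] (g : ℕ → ℕ) : FO fun M E v => P M E fun n => v (g n) := by
  obtain ⟨φ, h⟩ := h.ex
  obtain ⟨ψ, -, -, k⟩ := fml_ren φ g
  exact ⟨ψ, fun M E v => (sat_satIn E ψ v).trans
    ((k E _ v).trans ((sat_satIn E φ _).symm.trans (h M E _)))⟩

instance mem (i j : ℕ) : FO fun _ E v => E (v i) (v j) :=
  ⟨.mem i j, fun _ _ _ => Iff.rfl⟩

instance eq (i j : ℕ) : FO fun _ _ v => v i = v j :=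
  ⟨.eq i j, fun _ _ _ => Iff.rfl⟩

instance not [h : FO P] : FO fun M E v => ¬ P M E v := by
  obtain ⟨φ, h⟩ := h.ex
  exact ⟨.neg φ, fun M E v => not_congr (h M E v)⟩

instance and [h1 : FO P] [h2 : FO Q] : FO fun M E v => P M E v ∧ Q M E v := by
  obtain ⟨φ, h⟩ := h1.ex
  obtain ⟨ψ, k⟩ := h2.ex
  exact ⟨.and φ ψ, fun M E v => and_congr (h M E v) (k M E v)⟩

instance all (R : ∀ M : Type 1, (M → M → Prop) → (ℕ → M) → M → Prop)
    [h : FO fun M E v => R M E (fun n => v (n + 1)) (v 0)] :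
    FO fun M E v => ∀ a, R M E v a := by
  obtain ⟨φ, h⟩ := h.ex
  obtain ⟨d, ψ, -, -, -, k⟩ := fml_bind φ 0
  exact ⟨.all d ψ, fun M E v => forall_congr' fun a => (sat_satIn E ψ _).trans
    ((k E _ v a).trans ((sat_satIn E φ _).symm.trans (h M E (sc a v))))⟩

instance or [FO P] [FO Q] : FO fun M E v => P M E v ∨ Q M E v :=
  FO.congr (P := fun M E v => ¬ (¬ P M E v ∧ ¬ Q M E v)) fun _ _ _ => or_iff_not_and_not.symm

instance (priority := low) imp [FO P] [FO Q] : FO fun M E v => P M E v → Q M E v :=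
  FO.congr (P := fun M E v => ¬ (P M E v ∧ ¬ Q M E v)) fun _ _ _ => by rw [not_and, not_not]

instance iff [FO P] [FO Q] : FO fun M E v => P M E v ↔ Q M E v :=
  FO.congr (P := fun M E v => (P M E v → Q M E v) ∧ (Q M E v → P M E v)) fun _ _ _ =>
    iff_iff_implies_and_implies.symm

instance exi (R : ∀ M : Type 1, (M → M → Prop) → (ℕ → M) → M → Prop)
    [h : FO fun M E v => R M E (fun n => v (n + 1)) (v 0)] :
    FO fun M E v => ∃ a, R M E v a :=
  FO.congr (P := fun M E v => ¬ ∀ a, ¬ R M E v a) fun _ _ _ => not_forall_not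

instance hc (i : ℕ) : FO fun _ E v => HC E (v i) := by
  have h1 : ∀ i, FO fun _ E v => Ind E (v i) := fun i => by
    unfold Ind Emp Suc
    infer_instance
  have h2 : ∀ i j k, FO fun _ E v => Ap E (v i) (v j) (v k) := fun i j k => by
    unfold Ap Pr
    infer_instance
  unfold HC Om Le
  beta_reduce
  infer_instance

instance club (i j : ℕ) : FO fun _ E v => Club E (v i) (v j) := by
  unfold Club
  infer_instance

instance stat (i j : ℕ) : FO fun _ E v => Stat E (v i) (v j) := by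
  unfold Stat
  infer_instance

theorem satHC (φ : Fml) : FO fun _ E v => SatIn E (HC E) φ v := by
  induction φ with
  | mem i j => exact FO.mem i j
  | eq i j => exact FO.eq i j
  | neg φ ih => exact FO.not _ (h := ih)
  | and φ ψ ih ih' => exact FO.and _ _ (h1 := ih) (h2 := ih')
  | all i φ ih =>
    obtain ⟨ψ, h⟩ := (FO.imp (fun _ E v => HC E (v i)) fun _ E v => SatIn E (HC E) φ v).ex
    refine ⟨.all i ψ, fun M E v => forall_congr' fun a => (h M E _).trans ?_⟩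
    rw [Function.update_self]

end FO

/-- Elementary maps preserve first-order properties. -/
theorem FO.transfer (P : ∀ M : Type 1, (M → M → Prop) → (ℕ → M) → Prop) [FO P] {M N : Type 1}
    {E : M → M → Prop} {E' : N → N → Prop} {j : M → N}
    (h : ∀ φ v, Sat E φ v ↔ Sat E' φ (j ∘ v)) (v : ℕ → M) : P M E v ↔ P N E' (j ∘ v) := by
  obtain ⟨φ, k⟩ := FO.ex (P := P)
  exact (k M E v).symm.trans ((h φ v).trans (k N E' _))

theorem zda_upd (φ : Fml) (g : ℕ → ℕ) (a : ℕ) :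
    FO fun _ E v => Sat E φ (Function.update (fun n => v (g n)) 0 (v a)) :=
  FO.congr (h := FO.rename (fun _ E v => Sat E φ v) (h := ⟨φ, fun _ _ _ => Iff.rfl⟩)
    (Function.update g 0 a)) fun _ _ v => iff_of_eq (congrArg _ (Function.comp_update v g 0 a))

theorem zda_upd2 (φ : Fml) (g : ℕ → ℕ) (a b : ℕ) : FO fun _ E v =>
    Sat E φ (Function.update (Function.update (fun n => v (g n)) 0 (v a)) 1 (v b)) :=
  FO.congr (h := FO.rename (fun _ E v => Sat E φ v) (h := ⟨φ, fun _ _ _ => Iff.rfl⟩)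
    (Function.update (Function.update g 0 a) 1 b)) fun _ _ v => iff_of_eq (congrArg _
      ((Function.comp_update v _ 1 b).trans (by rw [Function.comp_update]; rfl)))

/-- Hint: `FO.transfer` for each clause; for `sep` and `repl` the predicate
`Sat E φ (update v 0 z)` is first-order in `z :: v`. -/
theorem zfc_transfer {M N : Type 1} {E : M → M → Prop} {E' : N → N → Prop} {j : M → N}
    [Nonempty M] (h : ∀ φ v, Sat E φ v ↔ Sat E' φ (j ∘ v)) (hz : ZFC E') : ZFC E := by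
  let v : ℕ → M := fun _ => Classical.arbitrary M
  refine ⟨(FO.transfer (fun _ E _ => ∀ x y, (∀ z, E z x ↔ E z y) → x = y) h v).2 hz.ext,
    (FO.transfer (fun _ E _ => ∀ x, (∃ y, E y x) → ∃ y, E y x ∧ ∀ z, E z y → ¬ E z x) h v).2
      hz.found,
    (FO.transfer (fun _ E _ => ∀ x y, ∃ p, ∀ z, E z p ↔ z = x ∨ z = y) h v).2 hz.pair,
    (FO.transfer (fun _ E _ => ∀ x, ∃ u, ∀ z, E z u ↔ ∃ y, E y x ∧ E z y) h v).2 hz.union,
    (FO.transfer (fun _ E _ => ∀ x, ∃ p, ∀ z, E z p ↔ ∀ t, E t z → E t x) h v).2 hz.power,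
    (FO.transfer (fun _ E _ => ∃ w, (∃ e, (∀ z, ¬ E z e) ∧ E e w) ∧
      ∀ x, E x w → ∃ y, (∀ z, E z y ↔ E z x ∨ z = x) ∧ E y w) h v).2 hz.inf,
    fun φ u => ?_, fun φ u => ?_,
    (FO.transfer (fun _ E _ => ∀ x, (∀ y, E y x → ∃ z, E z y) →
      (∀ y y', E y x → E y' x → ¬ y = y' → ∀ z, ¬ (E z y ∧ E z y')) →
      ∃ c, ∀ y, E y x → ∃ z, (E z y ∧ E z c) ∧ ∀ t, E t y ∧ E t c → t = z) h v).2 hz.choice⟩
  · have := zda_upd φ
    exact (FO.transfer (fun _ E u => ∀ x, ∃ y, ∀ z,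
      E z y ↔ E z x ∧ Sat E φ (Function.update u 0 z)) h u).2 (hz.sep φ _)
  · have := zda_upd2 φ
    exact (FO.transfer (fun _ E u => ∀ x,
      (∀ a, E a x → ∃ b, Sat E φ (Function.update (Function.update u 0 a) 1 b) ∧
        ∀ c, Sat E φ (Function.update (Function.update u 0 a) 1 c) → c = b) →
      ∃ y, ∀ b, E b y ↔ ∃ a, E a x ∧ Sat E φ (Function.update (Function.update u 0 a) 1 b))
      h u).2 (hz.repl φ _)

/-- Transitive classes. -/
def Tr (M : Set ZFSet.{0}) : Prop := ∀ x ∈ M, ∀ y ∈ x, y ∈ M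

/-- Membership restricted to a class. -/
def EM (M : Set ZFSet.{0}) (x y : M) : Prop := x.1 ∈ y.1

theorem satIn_sub (M : Set ZFSet.{0}) (P : M → Prop) (φ : Fml) (v : ℕ → M) :
    SatIn (EM M) P φ v ↔ SatIn Mem (fun z => ∃ h : z ∈ M, P ⟨z, h⟩) φ fun i => (v i).1 := by
  induction φ generalizing v with
  | mem i j => exact Iff.rfl
  | eq i j => exact Subtype.ext_iff
  | neg φ ih => exact not_congr (ih v)
  | and φ ψ ih1 ih2 => exact and_congr (ih1 v) (ih2 v)
  | all i φ ih =>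
    have e : ∀ a : M, (fun n => (Function.update v i a n).1) =
        Function.update (fun n => (v n).1) i a.1 := fun a => by
      funext n
      by_cases h : n = i
      · rw [h, Function.update_self, Function.update_self]
      · rw [Function.update_of_ne h, Function.update_of_ne h]
    constructor
    · rintro h a ⟨ha, hP⟩
      have k := (ih _).1 (h ⟨a, ha⟩ hP)
      rwa [e] at k
    · intro h a hP
      refine (ih _).2 ?_
      rw [e]
      exact h a.1 ⟨a.2, hP⟩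

theorem sat_sub (M : Set ZFSet.{0}) (φ : Fml) (v : ℕ → M) :
    Sat (EM M) φ v ↔ SatIn Mem (· ∈ M) φ fun i => (v i).1 := by
  rw [sat_satIn, satIn_sub]
  have e : (fun z : ZFSet.{0} => ∃ _ : z ∈ M, True) = (· ∈ M) := by
    funext z
    exact propext ⟨fun ⟨h, _⟩ => h, fun h => ⟨h, trivial⟩⟩
  rw [e]

/-- Definability over transitive classes, by a bounded formula if `b` is true. -/
class ZD (b : Bool) (P : Set ZFSet.{0} → (ℕ → ZFSet.{0}) → Prop) : Prop where
  ex : ∃ φ : Fml, (b = true → Delta0 φ) ∧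
    ∀ M v, Tr M → (∀ i, v i ∈ M) → (SatIn Mem (· ∈ M) φ v ↔ P M v)

namespace ZD

variable (b : Bool) (P Q : Set ZFSet.{0} → (ℕ → ZFSet.{0}) → Prop)

theorem congr {b : Bool} {P Q : Set ZFSet.{0} → (ℕ → ZFSet.{0}) → Prop} [h : ZD b P]
    (e : ∀ M v, Tr M → (∀ i, v i ∈ M) → (P M v ↔ Q M v)) : ZD b Q := by
  obtain ⟨φ, h1, h2⟩ := h.ex
  exact ⟨φ, h1, fun M v a c => (h2 M v a c).trans (e M v a c)⟩

theorem rename [h : ZD b P] (g : ℕ → ℕ) : ZD b fun M v => P M fun n => v (g n) := by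
  obtain ⟨φ, h1, h2⟩ := h.ex
  obtain ⟨ψ, k1, -, k2⟩ := fml_ren φ g
  exact ⟨ψ, fun e => k1 (h1 e), fun M v a c =>
    (k2 Mem (· ∈ M) v).trans (h2 M (v ∘ g) a fun i => c (g i))⟩

theorem weak [h : ZD true P] : ZD b P := by
  obtain ⟨φ, h1, h2⟩ := h.ex
  exact ⟨φ, fun _ => h1 rfl, h2⟩

instance mem (i j : ℕ) : ZD b fun _ v => v i ∈ v j := by
  exact ⟨.mem i j, fun _ => .mem i j, fun _ _ _ _ => Iff.rfl⟩

instance eq (i j : ℕ) : ZD b fun _ v => v i = v j := by
  exact ⟨.eq i j, fun _ => .eq i j, fun _ _ _ _ => Iff.rfl⟩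

instance not [h : ZD b P] : ZD b fun M v => ¬ P M v := by
  obtain ⟨φ, h1, h2⟩ := h.ex
  exact ⟨.neg φ, fun e => .neg (h1 e), fun M v a c => not_congr (h2 M v a c)⟩

instance and [h1 : ZD b P] [h2 : ZD b Q] : ZD b fun M v => P M v ∧ Q M v := by
  obtain ⟨φ, a1, a2⟩ := h1.ex
  obtain ⟨ψ, b1, b2⟩ := h2.ex
  exact ⟨.and φ ψ, fun e => .and (a1 e) (b1 e), fun M v a c =>
    and_congr (a2 M v a c) (b2 M v a c)⟩

instance or [ZD b P] [ZD b Q] : ZD b fun M v => P M v ∨ Q M v := by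
  exact congr (h := ZD.not b _ (h := ZD.and b _ _ (h1 := ZD.not b P) (h2 := ZD.not b Q)))
    fun _ _ _ _ => or_iff_not_and_not.symm

instance (priority := low) imp [ZD b P] [ZD b Q] : ZD b fun M v => P M v → Q M v := by
  exact congr (h := ZD.not b _ (h := ZD.and b P _ (h2 := ZD.not b Q)))
    fun _ _ _ _ => by rw [not_and, not_not]

instance iff [ZD b P] [ZD b Q] : ZD b fun M v => P M v ↔ Q M v := by
  exact congr (h := ZD.and b _ _ (h1 := ZD.imp b P Q) (h2 := ZD.imp b Q P))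
    fun _ _ _ _ => iff_def.symm

instance ball (j : ℕ) (R : Set ZFSet.{0} → (ℕ → ZFSet.{0}) → ZFSet.{0} → Prop)
    [h : ZD b fun M v => R M (fun n => v (n + 1)) (v 0)] :
    ZD b fun M v => ∀ a, a ∈ v j → R M v a := by
  obtain ⟨φ, h1, h2⟩ := h.ex
  obtain ⟨d, ψ, hd, k1, -, k2⟩ := fml_bind φ j
  refine ⟨.all d (.neg (.and (.mem d j) (.neg ψ))), fun e => .ball d j hd.ne' (k1 (h1 e)),
    fun M v a c => ?_⟩
  have e : ∀ x ∈ M, SatIn Mem (· ∈ M) (.neg (.and (.mem d j) (.neg ψ)))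
      (Function.update v d x) ↔ (x ∈ v j → R M v x) := fun x hx => by
    show ¬ (Mem (Function.update v d x d) (Function.update v d x j) ∧
      ¬ SatIn Mem (· ∈ M) ψ (Function.update v d x)) ↔ _
    rw [Function.update_self, Function.update_of_ne hd.ne, k2, h2 M _ a (sc_mem hx c), not_and,
      not_not]
    exact Iff.rfl
  exact ⟨fun k x hx => (e x (a _ (c j) x hx)).1 (k x (a _ (c j) x hx)) hx,
    fun k x hx => (e x hx).2 (k x)⟩

instance bex (j : ℕ) (R : Set ZFSet.{0} → (ℕ → ZFSet.{0}) → ZFSet.{0} → Prop)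
    [h : ZD b fun M v => R M (fun n => v (n + 1)) (v 0)] :
    ZD b fun M v => ∃ a, a ∈ v j ∧ R M v a := by
  exact congr (h := ZD.not b _ (h := ZD.ball b j (fun M v a => ¬ R M v a) (h := ZD.not b _)))
    fun _ _ _ _ => by simp only [not_forall, not_not, exists_prop]

instance allM (R : Set ZFSet.{0} → (ℕ → ZFSet.{0}) → ZFSet.{0} → Prop)
    [h : ZD false fun M v => R M (fun n => v (n + 1)) (v 0)] :
    ZD false fun M v => ∀ a, a ∈ M → R M v a := by
  obtain ⟨φ, -, h2⟩ := h.ex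
  obtain ⟨d, ψ, -, -, -, k2⟩ := fml_bind φ 0
  refine ⟨.all d ψ, fun e => absurd e Bool.false_ne_true, fun M v a c => ?_⟩
  exact forall₂_congr fun x hx => (k2 Mem (· ∈ M) v x).trans (h2 M _ a (sc_mem hx c))

instance exM (R : Set ZFSet.{0} → (ℕ → ZFSet.{0}) → ZFSet.{0} → Prop)
    [h : ZD false fun M v => R M (fun n => v (n + 1)) (v 0)] :
    ZD false fun M v => ∃ a, a ∈ M ∧ R M v a := by
  exact congr (h := ZD.not false _ (h := ZD.allM (fun M v a => ¬ R M v a) (h := ZD.not false _)))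
    fun _ _ _ _ => by simp only [not_forall, not_not, exists_prop]

instance subset (i j : ℕ) : ZD b fun _ v => v i ⊆ v j := by
  exact congr (h := ZD.ball b i (fun _ v a => a ∈ v j) (h := ZD.mem b 0 (j + 1)))
    fun _ _ _ _ => Iff.rfl

instance empty (i : ℕ) : ZD b fun _ v => v i = ∅ := by
  exact congr (h := ZD.ball b i (fun _ _ a => ¬ a = a) (h := ZD.not b _ (h := ZD.eq b 0 0)))
    fun _ v _ _ => ⟨fun k => (eq_empty _).2 fun a ha => k a ha rfl,
      fun k a ha => absurd ha ((eq_empty _).1 k a)⟩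

theorem zdb_upair (i j k : ℕ) : ZD b fun _ v => v i = {v j, v k} := by
  refine congr (h := ZD.and b _ _ (h1 := ZD.and b _ _ (h1 := ZD.mem b j i) (h2 := ZD.mem b k i))
    (h2 := ZD.ball b i (fun _ v a => a = v j ∨ a = v k)
      (h := ZD.or b (fun _ v => v 0 = v (j + 1)) fun _ v => v 0 = v (k + 1)))) fun _ v _ _ => ?_
  constructor
  · rintro ⟨⟨h1, h2⟩, h3⟩
    refine ZFSet.ext fun z => ⟨fun hz => mem_pair.2 (h3 z hz), fun hz => ?_⟩
    rcases mem_pair.1 hz with rfl | rfl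
    · exact h1
    · exact h2
  · intro e
    rw [e]
    exact ⟨⟨mem_pair.2 (Or.inl rfl), mem_pair.2 (Or.inr rfl)⟩, fun a ha => mem_pair.1 ha⟩

instance pair (i j k : ℕ) : ZD b fun _ v => v i = ZFSet.pair (v j) (v k) := by
  refine congr (h := ZD.and b _ _
    (h1 := ZD.ball b i (fun _ v a => a = {v j, v j} ∨ a = {v j, v k})
      (h := @ZD.or b _ _ (zdb_upair b 0 (j + 1) (j + 1)) (zdb_upair b 0 (j + 1) (k + 1))))
    (h2 := ZD.and b _ _
      (h1 := ZD.bex b i (fun _ v a => a = {v j, v j}) (h := zdb_upair b 0 (j + 1) (j + 1)))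
      (h2 := ZD.bex b i (fun _ v a => a = {v j, v k}) (h := zdb_upair b 0 (j + 1) (k + 1)))))
    fun _ v _ _ => ?_
  rw [pair_eq_singleton, ZFSet.pair]
  constructor
  · rintro ⟨h1, ⟨_, h2, rfl⟩, ⟨_, h3, rfl⟩⟩
    refine ZFSet.ext fun z => ⟨fun hz => mem_pair.2 (h1 z hz), fun hz => ?_⟩
    rcases mem_pair.1 hz with rfl | rfl
    · exact h2
    · exact h3
  · intro e
    rw [e]
    exact ⟨fun a ha => mem_pair.1 ha, ⟨_, mem_pair.2 (Or.inl rfl), rfl⟩,
      ⟨_, mem_pair.2 (Or.inr rfl), rfl⟩⟩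

theorem zdb_trans (i : ℕ) : ZD b fun _ v => (v i).IsTransitive :=
  congr (h := ZD.ball b i (fun _ v a => a ⊆ v i) (h := ZD.subset b 0 (i + 1)))
    fun _ _ _ _ => Iff.rfl

instance ordinal (i : ℕ) : ZD b fun _ v => (v i).IsOrdinal := by
  exact congr (h := ZD.and b _ _ (h1 := zdb_trans b i)
    (h2 := ZD.ball b i (fun _ _ a => a.IsTransitive) (h := zdb_trans b 0)))
    fun _ _ _ _ => isOrdinal_iff_forall_mem_isTransitive.symm

end ZD

/-- Definability by a `Σ_n` formula. -/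
def ZS (n : ℕ) (P : Set ZFSet.{0} → (ℕ → ZFSet.{0}) → Prop) : Prop :=
  ∃ φ : Fml, Sig n φ ∧ ∀ M v, Tr M → (∀ i, v i ∈ M) → (SatIn Mem (· ∈ M) φ v ↔ P M v)

namespace ZS

variable {n : ℕ} {P Q : Set ZFSet.{0} → (ℕ → ZFSet.{0}) → Prop}

theorem congr (h : ZS n P) (e : ∀ M v, Tr M → (∀ i, v i ∈ M) → (P M v ↔ Q M v)) : ZS n Q := by
  obtain ⟨φ, h1, h2⟩ := h
  exact ⟨φ, h1, fun M v a c => (h2 M v a c).trans (e M v a c)⟩

theorem zero (h : ZD true P) : ZS 0 P := by
  obtain ⟨φ, h1, h2⟩ := h.ex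
  exact ⟨φ, .zero (h1 rfl), h2⟩

theorem up (h : ZS n P) : ZS (n + 1) fun M v => ¬ P M v := by
  obtain ⟨φ, h1, h2⟩ := h
  exact ⟨.neg φ, .up h1, fun M v a c => not_congr (h2 M v a c)⟩

theorem ex (h : ZS (n + 1) P) : ZS (n + 1) fun M v => ∃ a ∈ M, P M (sc a v) := by
  obtain ⟨φ, h1, h2⟩ := h
  obtain ⟨d, ψ, -, -, k1, k2⟩ := fml_bind φ 0
  refine ⟨.neg (.all d (.neg ψ)), .ex d (k1 _ h1), fun M v a c => ?_⟩
  show (¬ ∀ x, x ∈ M → ¬ SatIn Mem (· ∈ M) ψ (Function.update v d x)) ↔ _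
  simp only [not_forall, not_not, exists_prop]
  exact exists_congr fun x => and_congr_right fun hx =>
    (k2 Mem (· ∈ M) v x).trans (h2 M _ a (sc_mem hx c))

end ZS

/-- Nested pairs. -/
def encZ : List ZFSet.{0} → ZFSet.{0}
  | [] => ∅
  | [a] => a
  | a :: b :: q => ZFSet.pair a (encZ (b :: q))

/-- The set that codes a list of ordinals. -/
noncomputable def enc (q : List On) : ZFSet.{0} := encZ (q.map Ordinal.toZFSet)

/-- The relation on ordinals that is coded by a set. -/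
def dec (r : ZFSet.{0}) : Set (List On) := {q | q ≠ [] ∧ enc q ∈ r}

/-- The unary part of a relation. -/
def d1 (R : Set (List On)) : Set On := {a | [a] ∈ R}

/-- The ordinals in a set. -/
def ods (r : ZFSet.{0}) : Set On := {a | a.toZFSet ∈ r}

@[simp] theorem d1_dec (r : ZFSet.{0}) : d1 (dec r) = ods r := by
  ext a
  simp [d1, dec, ods, enc, encZ]

theorem zdc_pair_ne (x y : ZFSet.{0}) (a : On) : ZFSet.pair x y ≠ a.toZFSet := by
  intro e
  have h1 : ({x} : ZFSet.{0}) ∈ a.toZFSet := e ▸ ZFSet.mem_pair.2 (Or.inl rfl)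
  obtain ⟨c, hc, -⟩ := Ordinal.mem_toZFSet_iff.1 h1
  have h2 : (∅ : ZFSet.{0}) ∈ ZFSet.pair x y := by
    rw [e, ← Ordinal.toZFSet_zero, Ordinal.toZFSet_mem_toZFSet_iff]
    exact zero_le.trans_lt hc
  rcases ZFSet.mem_pair.1 h2 with h | h
  · exact ZFSet.notMem_empty x (h ▸ ZFSet.mem_singleton.2 rfl)
  · exact ZFSet.notMem_empty x (h ▸ ZFSet.mem_pair.2 (Or.inl rfl))

/-- A pair is not an ordinal. -/
theorem enc_inj {q q' : List On} (h : q ≠ []) (h' : q' ≠ []) (e : enc q = enc q') : q = q' := by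
  induction q generalizing q' with
  | nil => exact absurd rfl h
  | cons a q ih =>
    rcases q' with _ | ⟨a', q'⟩
    · exact absurd rfl h'
    rcases q with _ | ⟨b, q⟩ <;> rcases q' with _ | ⟨b', q'⟩
    · exact congrArg (fun x => [x]) (Ordinal.toZFSet_injective e)
    · exact absurd e.symm (zdc_pair_ne _ _ _)
    · exact absurd e (zdc_pair_ne _ _ _)
    · obtain ⟨e1, e2⟩ := ZFSet.pair_inj.1 e
      rw [Ordinal.toZFSet_injective e1, ih (List.cons_ne_nil _ _) (List.cons_ne_nil b' q') e2]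

theorem zdc_encEq (b : Bool) (l : List ℕ) (g : ℕ → ℕ) (i : ℕ) :
    ZD b fun _ v => v i = encZ (l.map fun n => v (g n)) := by
  induction l generalizing g i with
  | nil => exact ZD.empty b i
  | cons a l ih =>
    rcases l with _ | ⟨c, l⟩
    · exact ZD.eq b i (g a)
    have h1 := ih (fun n => g n + 1 + 1) 0
    have h2 := ZD.and b _ _ (h1 := ZD.pair b (i + 1 + 1) (g a + 1 + 1) 0) (h2 := h1)
    have h3 := ZD.bex b 0 (fun _ v e => v (i + 1) = ZFSet.pair (v (g a + 1)) e ∧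
      e = encZ ((c :: l).map fun n => v (g n + 1))) (h := h2)
    have h4 := ZD.bex b i (fun _ v x => ∃ e, e ∈ x ∧ v i = ZFSet.pair (v (g a)) e ∧
      e = encZ ((c :: l).map fun n => v (g n))) (h := h3)
    refine ZD.congr (h := h4) fun M v _ _ => ⟨?_, fun h => ?_⟩
    · rintro ⟨x, -, e, -, h, rfl⟩
      exact h
    · refine ⟨{v (g a), encZ ((c :: l).map fun n => v (g n))}, ?_, _,
        ZFSet.mem_pair.2 (Or.inr rfl), h, rfl⟩
      rw [h]
      exact ZFSet.mem_pair.2 (Or.inr rfl)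

theorem ZD.encMem (b : Bool) (l : List ℕ) (j : ℕ) :
    ZD b fun _ v => encZ (l.map v) ∈ v j := by
  have := zdc_encEq b l (· + 1) 0
  refine ZD.congr (h := ZD.bex b j fun _ v a => a = encZ (l.map v)) fun M v _ _ => ?_
  exact ⟨fun ⟨a, ha, e⟩ => e ▸ ha, fun h => ⟨_, h, rfl⟩⟩

theorem exists_enc (S : Set (List On)) (L : On) (h : ∀ q ∈ S, q ≠ [] ∧ ∀ a ∈ q, a < L) :
    ∃ r : ZFSet.{0}, dec r = S ∧ ∀ z ∈ r, ∃ q ∈ S, z = enc q := by
  have : Small.{0} S := by
    refine small_subset (s := Set.range fun q : List (Set.Iio L) => q.map Subtype.val) fun q hq => ?_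
    exact ⟨q.attachWith (· ∈ Set.Iio L) (h q hq).2, List.attachWith_map_subtype_val _⟩
  refine ⟨ZFSet.range fun q : S => enc q.1, ?_, fun z hz => ?_⟩
  · ext q
    refine ⟨fun ⟨h1, h2⟩ => ?_, fun hq => ⟨(h q hq).1, ZFSet.mem_range.2 ⟨⟨q, hq⟩, rfl⟩⟩⟩
    obtain ⟨q', e⟩ := ZFSet.mem_range.1 h2
    exact enc_inj (h _ q'.2).1 h1 e ▸ q'.2
  · obtain ⟨q, e⟩ := ZFSet.mem_range.1 hz
    exact ⟨q.1, q.2, e.symm⟩

/-- The set of the ordinals of `B` below `L`. -/
noncomputable def zf (B : Set On) (L : On) : ZFSet.{0} := L.toZFSet.sep fun z => z.rank ∈ B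

theorem mem_zf {B : Set On} {L : On} {z : ZFSet.{0}} :
    z ∈ zf B L ↔ ∃ a < L, a ∈ B ∧ z = a.toZFSet := by
  rw [zf, ZFSet.mem_sep, Ordinal.mem_toZFSet_iff]
  constructor
  · rintro ⟨⟨a, ha, rfl⟩, hB⟩
    exact ⟨a, ha, by simpa using hB, rfl⟩
  · rintro ⟨a, ha, hB, rfl⟩
    exact ⟨⟨a, ha, rfl⟩, by simpa using hB⟩

@[simp] theorem ods_zf (B : Set On) (L : On) : ods (zf B L) = B ∩ Set.Iio L := by
  ext a
  refine mem_zf.trans ⟨?_, fun h => ⟨a, h.2, h.1, rfl⟩⟩
  rintro ⟨c, h1, h2, e⟩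
  rw [Ordinal.toZFSet_injective e]
  exact ⟨h2, h1⟩

theorem zf_subset (B : Set On) (L : On) : zf B L ⊆ L.toZFSet := by
  exact fun _ hz => (ZFSet.mem_sep.1 hz).1

theorem zf_ods {r : ZFSet.{0}} {L : On} (h : r ⊆ L.toZFSet) : zf (ods r) L = r := by
  ext z
  refine mem_zf.trans ⟨?_, fun hz => ?_⟩
  · rintro ⟨a, -, ha, rfl⟩
    exact ha
  · obtain ⟨a, ha, rfl⟩ := Ordinal.mem_toZFSet_iff.1 (h hz)
    exact ⟨a, ha, hz, rfl⟩

end Pool.Agent.MP_fd3eaf_lc
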